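import Mathlib

/-! Large value bounds and mean square bounds over arbitrary sets of points are equivalent. -/

set_option autoImplicit false

open Finset

namespace Pool.Agent.Q93.DP

/-- splitting a value according to its size -/
lemma level {x N η : ℝ} (hN : 1 ≤ N) (_hη : 0 < η) (hx0 : 0 ≤ x) (J : ℕ)
    (hx : x ≤ N ^ (1 / 2 + (J + 1) * η)) :
    x ^ 2 ≤ N ^ (1 + 2 * η) + ∑ j ∈ range J,
      (if N ^ (1 / 2 + ((j : ℝ) + 1) * η) < x then N ^ (1 + 2 * ((j : ℝ) + 1) * η + 2 * η) else 0) := by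
  have hN0 : 0 < N := by linarith
  induction J with
  | zero =>
    simp only [range_zero, sum_empty, add_zero]
    have h1 : x ^ 2 ≤ (N ^ (1 / 2 + ((0 : ℕ) + 1) * η)) ^ 2 := pow_le_pow_left₀ hx0 hx 2
    refine h1.trans (le_of_eq ?_)
    rw [← Real.rpow_natCast, ← Real.rpow_mul hN0.le]
    congr 1
    push_cast
    ring
  | succ J ih =>
    rw [sum_range_succ]
    have hnn : 0 ≤ ∑ j ∈ range J,
      (if N ^ (1 / 2 + ((j : ℝ) + 1) * η) < x then N ^ (1 + 2 * ((j : ℝ) + 1) * η + 2 * η) else 0) :=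
      sum_nonneg fun j _ => by split_ifs <;> positivity
    by_cases h : x ≤ N ^ (1 / 2 + ((J : ℝ) + 1) * η)
    · have := ih h
      have h2 : (0 : ℝ) ≤ (if N ^ (1 / 2 + ((J : ℝ) + 1) * η) < x then
        N ^ (1 + 2 * ((J : ℝ) + 1) * η + 2 * η) else 0) := by split_ifs <;> positivity
      linarith
    · push Not at h
      rw [if_pos h]
      have h1 : x ^ 2 ≤ (N ^ (1 / 2 + (((J + 1 : ℕ) : ℝ) + 1) * η)) ^ 2 :=
        pow_le_pow_left₀ hx0 hx 2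
      have h2 : (N ^ (1 / 2 + (((J + 1 : ℕ) : ℝ) + 1) * η)) ^ 2 =
          N ^ (1 + 2 * ((J : ℝ) + 1) * η + 2 * η) := by
        rw [← Real.rpow_natCast, ← Real.rpow_mul hN0.le]
        congr 1
        push_cast
        ring
      rw [h2] at h1
      have h3 : 0 ≤ N ^ (1 + 2 * η) := by positivity
      linarith

/-- from large values to mean squares -/
lemma ms_of_lv {ι : Type*} {F : ι → ℤ → ℝ} {N : ι → ℕ} {Ad : ι → Finset ℤ → Prop}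
    (hAd : ∀ i W W', W' ⊆ W → Ad i W → Ad i W') (hN : ∀ i W, Ad i W → 1 ≤ N i)
    (hF0 : ∀ i t, 0 ≤ F i t) (hF : ∀ i W, Ad i W → ∀ t, F i t ≤ 2 * (N i : ℝ))
    (h : ∀ σ : ℝ, 1 / 2 < σ → ∀ ε : ℝ, 0 < ε → ∃ C : ℝ, ∀ i W, Ad i W →
      (∀ t ∈ W, (N i : ℝ) ^ σ < F i t) → (W.card : ℝ) ≤ C * (N i : ℝ) ^ (2 - 2 * σ + ε)) :
    ∀ ε : ℝ, 0 < ε → ∃ C : ℝ, ∀ i W, Ad i W →
      ∑ t ∈ W, F i t ^ 2 ≤ C * ((N i : ℝ) ^ ε * ((N i : ℝ) ^ 2 + (W.card : ℝ) * (N i : ℝ))) := by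
  classical
  intro ε hε
  obtain ⟨η, hη⟩ : ∃ η : ℝ, η = ε / 3 := ⟨_, rfl⟩
  have hη0 : 0 < η := by rw [hη]; positivity
  obtain ⟨J, hJ⟩ : ∃ J : ℕ, 3 / 2 ≤ (J : ℝ) * η := by
    obtain ⟨J, hJ⟩ := exists_nat_ge (3 / 2 / η)
    exact ⟨J, by rwa [div_le_iff₀ hη0] at hJ⟩
  have hch : ∀ j : ℕ, ∃ C : ℝ, ∀ i W, Ad i W →
      (∀ t ∈ W, (N i : ℝ) ^ (1 / 2 + ((j : ℝ) + 1) * η) < F i t) →
      (W.card : ℝ) ≤ C * (N i : ℝ) ^ (2 - 2 * (1 / 2 + ((j : ℝ) + 1) * η) + η) := fun j =>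
    h _ (by
      have : 0 < ((j : ℝ) + 1) * η := by positivity
      linarith) η hη0
  choose C hC using hch
  refine ⟨4 + ∑ j ∈ range J, |C j|, fun i W hW => ?_⟩
  have hN1 : (1 : ℝ) ≤ N i := by exact_mod_cast hN i W hW
  have hN0 : (0 : ℝ) < N i := by linarith
  have hsC : 0 ≤ ∑ j ∈ range J, |C j| := sum_nonneg fun _ _ => abs_nonneg _
  have hNe : 1 ≤ (N i : ℝ) ^ ε := Real.one_le_rpow hN1 hε.le
  rcases eq_or_lt_of_le (hN i W hW) with h1 | h1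
  · -- `N = 1`
    have hNi : (N i : ℝ) = 1 := by rw [← h1]; norm_num
    have hle : ∀ t ∈ W, F i t ^ 2 ≤ 4 := by
      intro t _
      have h2 := hF i W hW t
      rw [hNi] at h2
      have h3 := hF0 i t
      nlinarith
    have h2 := sum_le_card_nsmul W _ 4 hle
    rw [nsmul_eq_mul] at h2
    rw [hNi, Real.one_rpow]
    have h3 : (0 : ℝ) ≤ W.card := Nat.cast_nonneg _
    nlinarith
  · have hN2 : (2 : ℝ) ≤ N i := by exact_mod_cast h1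
    have hx : ∀ t, F i t ≤ (N i : ℝ) ^ (1 / 2 + ((J : ℝ) + 1) * η) := by
      intro t
      refine (hF i W hW t).trans ?_
      calc 2 * (N i : ℝ) ≤ (N i : ℝ) ^ (2 : ℝ) := by rw [Real.rpow_two]; nlinarith
        _ ≤ _ := Real.rpow_le_rpow_of_exponent_le hN1 (by nlinarith)
    have hsum : ∑ t ∈ W, F i t ^ 2 ≤ ∑ t ∈ W, ((N i : ℝ) ^ (1 + 2 * η) + ∑ j ∈ range J,
        (if (N i : ℝ) ^ (1 / 2 + ((j : ℝ) + 1) * η) < F i t then
          (N i : ℝ) ^ (1 + 2 * ((j : ℝ) + 1) * η + 2 * η) else 0)) :=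
      sum_le_sum fun t _ => level hN1 hη0 (hF0 i t) J (hx t)
    refine hsum.trans ?_
    rw [sum_add_distrib, sum_const, nsmul_eq_mul, sum_comm]
    have hj : ∀ j ∈ range J, ∑ t ∈ W, (if (N i : ℝ) ^ (1 / 2 + ((j : ℝ) + 1) * η) < F i t then
          (N i : ℝ) ^ (1 + 2 * ((j : ℝ) + 1) * η + 2 * η) else 0) ≤
        |C j| * (N i : ℝ) ^ (2 + 3 * η) := by
      intro j _
      rw [← sum_filter, sum_const, nsmul_eq_mul]
      have h2 := hC j i (W.filter fun t => (N i : ℝ) ^ (1 / 2 + ((j : ℝ) + 1) * η) < F i t)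
        (hAd i W _ (filter_subset _ _) hW) (fun t ht => (mem_filter.1 ht).2)
      have h3 : C j * (N i : ℝ) ^ (2 - 2 * (1 / 2 + ((j : ℝ) + 1) * η) + η) ≤
          |C j| * (N i : ℝ) ^ (2 - 2 * (1 / 2 + ((j : ℝ) + 1) * η) + η) :=
        mul_le_mul_of_nonneg_right (le_abs_self _) (by positivity)
      calc _ ≤ (|C j| * (N i : ℝ) ^ (2 - 2 * (1 / 2 + ((j : ℝ) + 1) * η) + η)) *
            (N i : ℝ) ^ (1 + 2 * ((j : ℝ) + 1) * η + 2 * η) :=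
            mul_le_mul_of_nonneg_right (h2.trans h3) (by positivity)
        _ = _ := by
            rw [mul_assoc, ← Real.rpow_add hN0]
            congr 2
            ring
    have hsum2 := sum_le_sum hj
    rw [← sum_mul] at hsum2
    have e1 : (N i : ℝ) ^ (2 + 3 * η) = (N i : ℝ) ^ ε * (N i : ℝ) ^ 2 := by
      rw [← Real.rpow_natCast (N i : ℝ) 2, ← Real.rpow_add hN0]
      congr 1
      rw [hη]
      push_cast
      ring
    have e2 : (N i : ℝ) ^ (1 + 2 * η) ≤ (N i : ℝ) ^ ε * (N i : ℝ) := by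
      have : (N i : ℝ) ^ ε * (N i : ℝ) = (N i : ℝ) ^ (ε + 1) := by
        rw [Real.rpow_add hN0, Real.rpow_one]
      rw [this]
      apply Real.rpow_le_rpow_of_exponent_le hN1
      rw [hη]
      linarith
    rw [e1] at hsum2
    have h3 : (0 : ℝ) ≤ W.card := Nat.cast_nonneg _
    have h4 : (W.card : ℝ) * (N i : ℝ) ^ (1 + 2 * η) ≤
        (W.card : ℝ) * ((N i : ℝ) ^ ε * (N i : ℝ)) := mul_le_mul_of_nonneg_left e2 h3
    have h5 : 0 ≤ (N i : ℝ) ^ ε * (N i : ℝ) ^ 2 := by positivity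
    have h6 : 0 ≤ (W.card : ℝ) * ((N i : ℝ) ^ ε * (N i : ℝ)) := by positivity
    calc _ ≤ (W.card : ℝ) * ((N i : ℝ) ^ ε * (N i : ℝ)) +
          (∑ j ∈ range J, |C j|) * ((N i : ℝ) ^ ε * (N i : ℝ) ^ 2) := add_le_add h4 hsum2
      _ ≤ (4 + ∑ j ∈ range J, |C j|) * ((N i : ℝ) ^ ε * (N i : ℝ) ^ 2 +
          (W.card : ℝ) * ((N i : ℝ) ^ ε * (N i : ℝ))) := by nlinarith [mul_nonneg hsC h6]
      _ = _ := by ring

/-- from mean squares to large values -/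
lemma lv_of_ms {ι : Type*} {F : ι → ℤ → ℝ} {N : ι → ℕ} {Ad : ι → Finset ℤ → Prop} {A : ℝ}
    (hN : ∀ i W, Ad i W → 1 ≤ N i) (hcard : ∀ i W, Ad i W → (W.card : ℝ) ≤ 2 * (N i : ℝ) ^ A)
    (h : ∀ ε : ℝ, 0 < ε → ∃ C : ℝ, ∀ i W, Ad i W →
      ∑ t ∈ W, F i t ^ 2 ≤ C * ((N i : ℝ) ^ ε * ((N i : ℝ) ^ 2 + (W.card : ℝ) * (N i : ℝ)))) :
    ∀ σ : ℝ, 1 / 2 < σ → ∀ ε : ℝ, 0 < ε → ∃ C : ℝ, ∀ i W, Ad i W →
      (∀ t ∈ W, (N i : ℝ) ^ σ < F i t) → (W.card : ℝ) ≤ C * (N i : ℝ) ^ (2 - 2 * σ + ε) := by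
  intro σ hσ ε hε
  obtain ⟨ε', hε'⟩ : ∃ ε' : ℝ, ε' = min ε ((2 * σ - 1) / 2) := ⟨_, rfl⟩
  have hε'0 : 0 < ε' := by rw [hε']; exact lt_min hε (by linarith)
  have hε'1 : ε' ≤ ε := by rw [hε']; exact min_le_left _ _
  have hε'2 : ε' ≤ (2 * σ - 1) / 2 := by rw [hε']; exact min_le_right _ _
  obtain ⟨C0, hC0⟩ := h ε' hε'0
  obtain ⟨C, hCdef⟩ : ∃ C : ℝ, C = max C0 1 := ⟨_, rfl⟩
  have hC1 : 1 ≤ C := by rw [hCdef]; exact le_max_right _ _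
  -- threshold
  have hev := (tendsto_rpow_atTop (y := (2 * σ - 1) / 2) (by linarith)).comp
    (tendsto_natCast_atTop_atTop (R := ℝ))
  obtain ⟨N0, hN0⟩ := Filter.eventually_atTop.1 (hev.eventually_ge_atTop (2 * C))
  obtain ⟨M, hM⟩ : ∃ M : ℕ, M = N0 + 1 := ⟨_, rfl⟩
  have hM1 : (1 : ℝ) ≤ M := by rw [hM]; exact_mod_cast Nat.le_add_left 1 N0
  refine ⟨2 * C + 2 * (M : ℝ) ^ |A| * (M : ℝ) ^ |2 - 2 * σ + ε|, fun i W hW hlv => ?_⟩
  have hN1 : (1 : ℝ) ≤ N i := by exact_mod_cast hN i W hW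
  have hNpos : (0 : ℝ) < N i := by linarith
  have hw0 : (0 : ℝ) ≤ W.card := Nat.cast_nonneg _
  rcases le_or_gt N0 (N i) with hlarge | hsmall
  · have hbig : 2 * C ≤ (N i : ℝ) ^ ((2 * σ - 1) / 2) := hN0 (N i) hlarge
    have h1 : (W.card : ℝ) * (N i : ℝ) ^ (2 * σ) ≤ ∑ t ∈ W, F i t ^ 2 := by
      rw [← nsmul_eq_mul]
      apply card_nsmul_le_sum
      intro t ht
      have h2 := hlv t ht
      have h3 : (N i : ℝ) ^ (2 * σ) = ((N i : ℝ) ^ σ) ^ 2 := by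
        rw [← Real.rpow_natCast, ← Real.rpow_mul hNpos.le]
        congr 1
        push_cast
        ring
      rw [h3]
      exact pow_le_pow_left₀ (by positivity) h2.le 2
    have h2 := hC0 i W hW
    have h3 : C0 * ((N i : ℝ) ^ ε' * ((N i : ℝ) ^ 2 + (W.card : ℝ) * (N i : ℝ))) ≤
        C * ((N i : ℝ) ^ ε' * ((N i : ℝ) ^ 2 + (W.card : ℝ) * (N i : ℝ))) := by
      apply mul_le_mul_of_nonneg_right _ (by positivity)
      rw [hCdef]; exact le_max_left _ _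
    have h4 : 2 * (C * (N i : ℝ) ^ ε' * (N i : ℝ)) ≤ (N i : ℝ) ^ (2 * σ) := by
      have e : (N i : ℝ) ^ (2 * σ) = (N i : ℝ) ^ ((2 * σ - 1) / 2) * (N i : ℝ) ^ ((2 * σ - 1) / 2) *
          (N i : ℝ) := by
        have e1 : (N i : ℝ) ^ ((2 * σ - 1) / 2) * (N i : ℝ) ^ ((2 * σ - 1) / 2) * (N i : ℝ) =
            (N i : ℝ) ^ ((2 * σ - 1) / 2) * (N i : ℝ) ^ ((2 * σ - 1) / 2) * (N i : ℝ) ^ (1 : ℝ) := by
          rw [Real.rpow_one]
        rw [e1, ← Real.rpow_add hNpos, ← Real.rpow_add hNpos]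
        congr 1
        ring
      rw [e]
      have h5 : (N i : ℝ) ^ ε' ≤ (N i : ℝ) ^ ((2 * σ - 1) / 2) :=
        Real.rpow_le_rpow_of_exponent_le hN1 hε'2
      have h6 : 2 * C * (N i : ℝ) ^ ε' ≤
          (N i : ℝ) ^ ((2 * σ - 1) / 2) * (N i : ℝ) ^ ((2 * σ - 1) / 2) :=
        mul_le_mul hbig h5 (by positivity) (by positivity)
      nlinarith
    have h5 : (W.card : ℝ) * (N i : ℝ) ^ (2 * σ) ≤ 2 * (C * ((N i : ℝ) ^ ε' * (N i : ℝ) ^ 2)) := by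
      nlinarith
    have h6 : (W.card : ℝ) ≤ 2 * C * (N i : ℝ) ^ (2 - 2 * σ + ε') := by
      have hp : 0 < (N i : ℝ) ^ (2 * σ) := by positivity
      rw [← mul_le_mul_iff_of_pos_right hp]
      refine h5.trans (le_of_eq ?_)
      rw [mul_assoc, mul_assoc, ← Real.rpow_add hNpos, ← Real.rpow_natCast (N i : ℝ) 2,
        ← Real.rpow_add hNpos]
      congr 3
      push_cast
      ring
    have h7 : (N i : ℝ) ^ (2 - 2 * σ + ε') ≤ (N i : ℝ) ^ (2 - 2 * σ + ε) :=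
      Real.rpow_le_rpow_of_exponent_le hN1 (by linarith)
    have h8 : 0 ≤ 2 * (M : ℝ) ^ |A| * (M : ℝ) ^ |2 - 2 * σ + ε| := by positivity
    have h9 : 0 < (N i : ℝ) ^ (2 - 2 * σ + ε) := by positivity
    calc (W.card : ℝ) ≤ 2 * C * (N i : ℝ) ^ (2 - 2 * σ + ε) :=
          h6.trans (mul_le_mul_of_nonneg_left h7 (by positivity))
      _ ≤ _ := mul_le_mul_of_nonneg_right (by linarith) h9.le
  · have hNM : (N i : ℝ) ≤ M := by rw [hM]; exact_mod_cast (by omega : N i ≤ N0 + 1)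
    have h1 := hcard i W hW
    have h2 : (N i : ℝ) ^ A ≤ (M : ℝ) ^ |A| := by
      calc (N i : ℝ) ^ A ≤ (N i : ℝ) ^ |A| := Real.rpow_le_rpow_of_exponent_le hN1 (le_abs_self A)
        _ ≤ _ := Real.rpow_le_rpow hNpos.le hNM (abs_nonneg A)
    have h3 : 1 ≤ (M : ℝ) ^ |2 - 2 * σ + ε| * (N i : ℝ) ^ (2 - 2 * σ + ε) := by
      have h4 : (N i : ℝ) ^ (-|2 - 2 * σ + ε|) ≤ (N i : ℝ) ^ (2 - 2 * σ + ε) :=
        Real.rpow_le_rpow_of_exponent_le hN1 (neg_abs_le _)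
      have h5 : (N i : ℝ) ^ |2 - 2 * σ + ε| ≤ (M : ℝ) ^ |2 - 2 * σ + ε| :=
        Real.rpow_le_rpow hNpos.le hNM (abs_nonneg _)
      calc (1 : ℝ) = (N i : ℝ) ^ |2 - 2 * σ + ε| * (N i : ℝ) ^ (-|2 - 2 * σ + ε|) := by
            rw [← Real.rpow_add hNpos]; simp
        _ ≤ _ := mul_le_mul h5 h4 (by positivity) (by positivity)
    have h9 : 0 < (N i : ℝ) ^ (2 - 2 * σ + ε) := by positivity
    calc (W.card : ℝ) ≤ 2 * (M : ℝ) ^ |A| * 1 := by linarith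
      _ ≤ 2 * (M : ℝ) ^ |A| * ((M : ℝ) ^ |2 - 2 * σ + ε| * (N i : ℝ) ^ (2 - 2 * σ + ε)) :=
          mul_le_mul_of_nonneg_left h3 (by positivity)
      _ = (2 * (M : ℝ) ^ |A| * (M : ℝ) ^ |2 - 2 * σ + ε|) * (N i : ℝ) ^ (2 - 2 * σ + ε) := by ring
      _ ≤ _ := mul_le_mul_of_nonneg_right (by linarith) h9.le

end Pool.Agent.Q93.DP
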