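import Pool.Agent.Q93.DP.Rand

/-! Exceptional sets of sign sequences: Hausdorff dimension. -/

set_option autoImplicit false

open MeasureTheory ProbabilityTheory ENNReal

namespace Pool.Agent.Q93.DP

attribute [local instance] PiNat.metricSpace

/-- **Mass distribution principle** in the Cantor space, metric `2 ^ (- first difference)`. -/
theorem mass (ν : Measure (ℕ → Bool)) {s : NNReal} (hs : 0 < s)
    (h : ∀ (x : ℕ → Bool) (n : ℕ), ν (PiNat.cylinder x n) ≤ (ENNReal.ofReal ((1 / 2) ^ n)) ^ (s : ℝ))
    {A : Set (ℕ → Bool)} (hA : ν A ≠ 0) : (s : ℝ≥0∞) ≤ dimH A := by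
  have hle : ν ≤ μH[(s : ℝ)] := by
    apply Measure.le_hausdorffMeasure (s : ℝ) ν 1 one_pos
    intro B _
    rcases B.subsingleton_or_nontrivial with hB | hB
    · -- points have measure zero
      have h0 : ν B = 0 := by
        rcases hB.eq_empty_or_singleton with rfl | ⟨x, rfl⟩
        · simp
        · have h1 : ∀ n : ℕ, ν {x} ≤ (ENNReal.ofReal ((1 / 2) ^ n)) ^ (s : ℝ) := fun n =>
            (measure_mono (Set.singleton_subset_iff.2 (PiNat.self_mem_cylinder x n))).trans (h x n)
          have h2 : Filter.Tendsto (fun n : ℕ => (ENNReal.ofReal ((1 / 2) ^ n)) ^ (s : ℝ))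
              Filter.atTop (nhds 0) := by
            have h3 : Filter.Tendsto (fun n : ℕ => ENNReal.ofReal ((1 / 2) ^ n)) Filter.atTop
                (nhds 0) := by
              have := ENNReal.tendsto_ofReal
                (tendsto_pow_atTop_nhds_zero_of_lt_one (r := (1 / 2 : ℝ)) (by norm_num)
                  (by norm_num))
              rwa [ENNReal.ofReal_zero] at this
            have h4 := (ENNReal.continuous_rpow_const (y := (s : ℝ))).tendsto 0
            rw [ENNReal.zero_rpow_of_pos (by exact_mod_cast hs)] at h4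
            exact h4.comp h3
          exact le_antisymm (ge_of_tendsto' h2 h1) bot_le
      rw [h0]
      exact bot_le
    · obtain ⟨n, hn⟩ : ∃ n : ℕ, n = sInf {k | ∃ x ∈ B, ∃ y ∈ B, x ≠ y ∧ PiNat.firstDiff x y = k} :=
        ⟨_, rfl⟩
      have hne : {k | ∃ x ∈ B, ∃ y ∈ B, x ≠ y ∧ PiNat.firstDiff x y = k}.Nonempty := by
        obtain ⟨x, hx, y, hy, hxy⟩ := hB
        exact ⟨_, x, hx, y, hy, hxy, rfl⟩
      have hmem := Nat.sInf_mem hne
      rw [← hn] at hmem
      obtain ⟨x, hx, y, hy, hxy, hd⟩ := hmem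
      have hsub : B ⊆ PiNat.cylinder x n := by
        intro z hz
        by_cases hzx : x = z
        · rw [hzx]; exact PiNat.self_mem_cylinder z n
        · rw [PiNat.mem_cylinder_comm, PiNat.mem_cylinder_iff_le_firstDiff hzx]
          rw [hn]
          exact Nat.sInf_le ⟨x, hx, z, hz, hzx, rfl⟩
      refine (measure_mono hsub).trans ((h x n).trans ?_)
      apply ENNReal.rpow_le_rpow _ (by positivity)
      have h5 : edist x y ≤ Metric.ediam B := Metric.edist_le_ediam_of_mem hx hy
      refine le_trans (le_of_eq ?_) h5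
      rw [edist_dist]
      congr 1
      rw [← hd]
      exact (PiNat.dist_eq_of_ne hxy).symm
  apply le_dimH_of_hausdorffMeasure_ne_zero
  intro h0
  exact hA (le_antisymm ((hle A).trans h0.le) bot_le)

/-- the sign of a bit -/
def sg (b : Bool) : ℝ := if b then 1 else -1

/-- the law of a random sign of mean `m` -/
noncomputable def law (m : ℝ) : Measure Bool :=
  ENNReal.ofReal ((1 + m) / 2) • Measure.dirac true + ENNReal.ofReal ((1 - m) / 2) • Measure.dirac false

lemma law_prob {m : ℝ} (h : |m| ≤ 1) : IsProbabilityMeasure (law m) := by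
  constructor
  rw [abs_le] at h
  unfold law
  simp only [Measure.coe_add, Measure.coe_smul, Pi.add_apply, Pi.smul_apply, measure_univ,
    smul_eq_mul, mul_one]
  rw [← ENNReal.ofReal_add (by linarith) (by linarith)]
  have : (1 + m) / 2 + (1 - m) / 2 = 1 := by ring
  rw [this, ENNReal.ofReal_one]

lemma law_singleton {m η : ℝ} (h : |m| ≤ η) (b : Bool) :
    law m {b} ≤ ENNReal.ofReal ((1 + η) / 2) := by
  rw [abs_le] at h
  unfold law
  cases b
  · simp only [Measure.coe_add, Measure.coe_smul, Pi.add_apply, Pi.smul_apply, smul_eq_mul]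
    rw [Measure.dirac_apply' _ (measurableSet_singleton _),
      Measure.dirac_apply' _ (measurableSet_singleton _)]
    simp only [Set.indicator, Set.mem_singleton_iff]
    simp only [Bool.true_eq_false, if_false, mul_zero, zero_add, if_true, Pi.one_apply, mul_one]
    exact ENNReal.ofReal_le_ofReal (by linarith)
  · simp only [Measure.coe_add, Measure.coe_smul, Pi.add_apply, Pi.smul_apply, smul_eq_mul]
    rw [Measure.dirac_apply' _ (measurableSet_singleton _),
      Measure.dirac_apply' _ (measurableSet_singleton _)]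
    simp only [Set.indicator, Set.mem_singleton_iff]
    simp only [Bool.false_eq_true, if_false, mul_zero, add_zero, if_true, Pi.one_apply, mul_one]
    exact ENNReal.ofReal_le_ofReal (by linarith)

lemma law_mean {m : ℝ} (h : |m| ≤ 1) : ∫ b, ((sg b : ℝ) : ℂ) ∂(law m) = (m : ℂ) := by
  rw [abs_le] at h
  unfold law
  have hfin : ∀ (μ : Measure Bool) [IsFiniteMeasure μ], Integrable (fun b => ((sg b : ℝ) : ℂ)) μ :=
    fun μ _ => Integrable.of_finite
  rw [integral_add_measure ((hfin _).smul_measure ENNReal.ofReal_ne_top)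
    ((hfin _).smul_measure ENNReal.ofReal_ne_top), integral_smul_measure, integral_smul_measure,
    integral_dirac, integral_dirac, ENNReal.toReal_ofReal (by linarith),
    ENNReal.toReal_ofReal (by linarith)]
  simp only [sg, if_true, Bool.false_eq_true, if_false, Complex.real_smul]
  push_cast
  ring

/-- sequences with the bound of random sequences -/
def Small (b : ℕ → ℂ) : Prop :=
  ∃ C : ℝ, 0 ≤ C ∧ ∀ (N : ℕ) (t : ℝ), ‖D b 1 N t‖ ^ 2 ≤ C * (N * Real.log (N + |t| + 2))

/-- independent coefficients: centering -/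
theorem as_center {Ω : Type*} [MeasurableSpace Ω] {μ : Measure Ω} [IsProbabilityMeasure μ]
    {X : ℕ → Ω → ℂ} (hm : ∀ n, Measurable (X n)) (hi : iIndepFun X μ) (hb : ∀ n ω, ‖X n ω‖ ≤ 1) :
    ∀ᵐ ω ∂μ, Small (fun n => X n ω - ∫ ω', X n ω' ∂μ) := by
  have hint : ∀ n, Integrable (X n) μ := fun n =>
    Integrable.of_bound (hm n).aestronglyMeasurable 1 (ae_of_all _ (hb n))
  have hmean : ∀ n, ‖∫ ω', X n ω' ∂μ‖ ≤ 1 := by
    intro n
    have := norm_integral_le_of_norm_le_const (μ := μ) (f := X n) (C := 1) (ae_of_all _ (hb n))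
    simpa using this
  have hc := as_bound (μ := μ) (X := fun n ω => (1 / 2 : ℂ) * (X n ω - ∫ ω', X n ω' ∂μ))
    (fun n => ((hm n).sub_const _).const_mul _)
    (hi.comp (fun n z => (1 / 2 : ℂ) * (z - ∫ ω', X n ω' ∂μ)) (fun n => by fun_prop))
    (fun n ω => by
      rw [norm_mul]
      have h1 := norm_sub_le (X n ω) (∫ ω', X n ω' ∂μ)
      have h2 := hb n ω
      have h3 := hmean n
      have h4 : ‖(1 / 2 : ℂ)‖ = 1 / 2 := by simp
      rw [h4]
      linarith)
    (fun n => by
      rw [integral_const_mul, integral_sub (hint n) (integrable_const _), integral_const]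
      simp)
  filter_upwards [hc] with ω hω
  obtain ⟨C, hC0, hC⟩ := hω
  refine ⟨4 * C, by positivity, fun N t => ?_⟩
  have e : D (fun n => X n ω - ∫ ω', X n ω' ∂μ) 1 N t =
      2 * D (fun n => (1 / 2 : ℂ) * (X n ω - ∫ ω', X n ω' ∂μ)) 1 N t := by
    rw [← D_smul]
    congr 1
    funext n
    ring
  rw [e, norm_mul, mul_pow]
  have h2 : ‖(2 : ℂ)‖ ^ 2 = 4 := by norm_num
  rw [h2]
  have := hC N t
  linarith

/-- linear spaces of sequences which contain all small sequences -/
structure Adm (P : (ℕ → ℂ) → Prop) : Prop where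
  add : ∀ a b, P a → P b → P (fun n => a n + b n)
  smul : ∀ (c : ℂ) (a), P a → P (fun n => c * a n)
  small : ∀ a, Small a → P a

/-- independent coefficients: only the means matter -/
theorem as_iff {P : (ℕ → ℂ) → Prop} (hP : Adm P)
    {Ω : Type*} [MeasurableSpace Ω] {μ : Measure Ω} [IsProbabilityMeasure μ]
    {X : ℕ → Ω → ℂ} (hm : ∀ n, Measurable (X n)) (hi : iIndepFun X μ) (hb : ∀ n ω, ‖X n ω‖ ≤ 1) :
    ∀ᵐ ω ∂μ, (P (fun n => X n ω) ↔ P (fun n => ∫ ω', X n ω' ∂μ)) := by
  filter_upwards [as_center hm hi hb] with ω hω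
  have h1 := hP.small _ hω
  constructor
  · intro h
    have h2 := hP.add _ _ h (hP.smul (-1) _ h1)
    refine cast ?_ h2
    congr 1
    funext n
    ring
  · intro h
    have h2 := hP.add _ _ h1 h
    refine cast ?_ h2
    congr 1
    funext n
    ring

/-- the sign sequence of a point of the Cantor space -/
def sgn (e : ℕ → Bool) (n : ℕ) : ℂ := ((sg (e n) : ℝ) : ℂ)

/-- **Dimension theorem**: if a linear space of sequences which contains all small sequences does not
contain all sign sequences, then the exceptional set has Hausdorff dimension `≥ 1`. -/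
theorem dim_of_not {P : (ℕ → ℂ) → Prop} (hP : Adm P) (e0 : ℕ → Bool) (h0 : ¬ P (sgn e0)) :
    1 ≤ dimH {e : ℕ → Bool | ¬ P (sgn e)} := by
  have key : ∀ s : NNReal, 0 < s → s < 1 → (s : ℝ≥0∞) ≤ dimH {e : ℕ → Bool | ¬ P (sgn e)} := by
    intro s hs0 hs1
    have hs0' : (0 : ℝ) < s := by exact_mod_cast hs0
    have hs1' : (s : ℝ) < 1 := by exact_mod_cast hs1
    -- the bias
    obtain ⟨η, hη⟩ : ∃ η : ℝ, η = 2 * (1 / 2 : ℝ) ^ (s : ℝ) - 1 := ⟨_, rfl⟩
    have hη0 : 0 < η := by
      have : (1 / 2 : ℝ) ^ (1 : ℝ) < (1 / 2 : ℝ) ^ (s : ℝ) :=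
        Real.rpow_lt_rpow_of_exponent_gt (by norm_num) (by norm_num) hs1'
      rw [Real.rpow_one] at this
      linarith
    have hη1 : η ≤ 1 := by
      have : (1 / 2 : ℝ) ^ (s : ℝ) ≤ 1 := Real.rpow_le_one (by norm_num) (by norm_num) hs0'.le
      linarith
    have habs : ∀ n, |η * sg (e0 n)| ≤ η := by
      intro n
      rw [abs_mul, abs_of_pos hη0]
      have : |sg (e0 n)| = 1 := by unfold sg; split_ifs <;> simp
      rw [this, mul_one]
    have hprob : ∀ n, IsProbabilityMeasure (law (η * sg (e0 n))) := fun n =>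
      law_prob ((habs n).trans hη1)
    have hmass := mass (Measure.infinitePi fun n => law (η * sg (e0 n))) hs0 ?_
      (A := {e : ℕ → Bool | ¬ P (sgn e)}) ?_
    · exact hmass
    · intro x n
      rw [PiNat.cylinder_eq_pi]
      rw [Measure.infinitePi_pi _ (fun i _ => measurableSet_singleton _)]
      calc ∏ i ∈ Finset.range n, (law (η * sg (e0 i))) {x i}
          ≤ ∏ _i ∈ Finset.range n, ENNReal.ofReal ((1 + η) / 2) :=
            Finset.prod_le_prod' fun i _ => law_singleton (habs i) _
        _ = ENNReal.ofReal ((1 + η) / 2) ^ n := by rw [Finset.prod_const, Finset.card_range]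
        _ = _ := by
            have h1 : (1 + η) / 2 = (1 / 2 : ℝ) ^ (s : ℝ) := by rw [hη]; ring
            rw [h1, ← ENNReal.ofReal_pow (by positivity),
              ENNReal.ofReal_rpow_of_nonneg (by positivity) hs0'.le]
            congr 1
            rw [← Real.rpow_natCast, ← Real.rpow_natCast, ← Real.rpow_mul (by norm_num),
              ← Real.rpow_mul (by norm_num), mul_comm]
    · have hi : iIndepFun (fun n (ω : ℕ → Bool) => ((sg (ω n) : ℝ) : ℂ))
          (Measure.infinitePi fun n => law (η * sg (e0 n))) :=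
        iIndepFun_infinitePi (X := fun _ b => ((sg b : ℝ) : ℂ)) (fun _ => Measurable.of_discrete)
      have hb : ∀ n (ω : ℕ → Bool), ‖((sg (ω n) : ℝ) : ℂ)‖ ≤ 1 := by
        intro n ω
        rw [Complex.norm_real]
        unfold sg
        split_ifs <;> simp
      have hm : ∀ n, Measurable (fun (ω : ℕ → Bool) => ((sg (ω n) : ℝ) : ℂ)) := fun n =>
        (Measurable.of_discrete (f := fun b : Bool => ((sg b : ℝ) : ℂ))).comp (measurable_pi_apply n)
      have hmean : ∀ n, ∫ ω, ((sg (ω n) : ℝ) : ℂ) ∂(Measure.infinitePi fun n => law (η * sg (e0 n))) =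
          (η : ℂ) * sgn e0 n := by
        intro n
        have hmp := measurePreserving_eval_infinitePi (fun n => law (η * sg (e0 n))) n
        have h2 : ∫ ω, ((sg (ω n) : ℝ) : ℂ) ∂(Measure.infinitePi fun n => law (η * sg (e0 n))) =
            ∫ b, ((sg b : ℝ) : ℂ) ∂(law (η * sg (e0 n))) := by
          rw [← hmp.map_eq, integral_map hmp.measurable.aemeasurable
            (Measurable.of_discrete.aestronglyMeasurable)]
        rw [h2, law_mean ((habs n).trans hη1)]
        unfold sgn
        push_cast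
        ring
      have has := as_iff hP hm hi hb
      have hall : ∀ᵐ e ∂(Measure.infinitePi fun n => law (η * sg (e0 n))), ¬ P (sgn e) := by
        filter_upwards [has] with e he hcon
        have h1 : P (fun n => ∫ ω', ((sg (ω' n) : ℝ) : ℂ)
          ∂(Measure.infinitePi fun n => law (η * sg (e0 n)))) := he.1 hcon
        simp only [hmean] at h1
        have h2 := hP.smul (η : ℂ)⁻¹ _ h1
        apply h0
        refine cast ?_ h2
        congr 1
        funext n
        have : (η : ℂ) ≠ 0 := by exact_mod_cast hη0.ne'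
        field_simp
      intro hz
      have h1 : ∀ᵐ e ∂(Measure.infinitePi fun n => law (η * sg (e0 n))), P (sgn e) := by
        rw [ae_iff]; exact hz
      have h2 : ∀ᵐ _e ∂(Measure.infinitePi fun n => law (η * sg (e0 n))), False := by
        filter_upwards [h1, hall] with e he1 he2
        exact he2 he1
      simp only [Filter.eventually_false_iff_eq_bot, ae_eq_bot] at h2
      exact IsProbabilityMeasure.ne_zero _ h2
  by_contra hcon
  push Not at hcon
  obtain ⟨r, hr1, hr2⟩ := ENNReal.lt_iff_exists_nnreal_btwn.1 hcon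
  have hr2' : r < 1 := by exact_mod_cast hr2
  have hr0 : 0 < r := by
    have : (0 : ℝ≥0∞) < r := lt_of_le_of_lt bot_le hr1
    exact_mod_cast this
  exact absurd (key r hr0 hr2') (not_le.2 hr1)

end Pool.Agent.Q93.DP
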