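import Pool.Agent.Q93.DP.Cat
import Pool.Agent.Q93.DP.Dim

/-! The sequences with a given bound form a linear space. -/

set_option autoImplicit false

namespace Pool.Agent.Q93.DP

attribute [local instance] PiNat.metricSpace

theorem adm_Bd {X : Type*} (M N : X → ℕ) (S : X → Finset ℝ) (g : X → ℝ) {q : ℝ} (hq : 0 ≤ q)
    (hsmall : ∀ a, Small a → Bd M N S g q a) : Adm (Bd M N S g q) := by
  refine ⟨?_, ?_, hsmall⟩
  · rintro a b ⟨C, hC⟩ ⟨C', hC'⟩
    refine ⟨2 ^ q * (C + C'), fun x => ?_⟩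
    refine (Ph_add hq (S x) (M x) (N x) a b).trans ?_
    have h1 := hC x
    have h2 := hC' x
    calc 2 ^ q * (Ph q (S x) (M x) (N x) a + Ph q (S x) (M x) (N x) b)
        ≤ 2 ^ q * (C * g x + C' * g x) := mul_le_mul_of_nonneg_left (by linarith) (by positivity)
      _ = _ := by ring
  · rintro c a ⟨C, hC⟩
    refine ⟨‖c‖ ^ q * C, fun x => ?_⟩
    rw [Ph_smul, mul_assoc]
    exact mul_le_mul_of_nonneg_left (hC x) (by positivity)

lemma Adm.all {ι : Type*} {p : ι → Prop} {P : ι → (ℕ → ℂ) → Prop} (h : ∀ i, p i → Adm (P i)) :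
    Adm (fun a => ∀ i, p i → P i a) :=
  ⟨fun a b ha hb i hi => (h i hi).add a b (ha i hi) (hb i hi),
    fun c a ha i hi => (h i hi).smul c a (ha i hi), fun a ha i hi => (h i hi).small a ha⟩

/-- the set `{1, -1}` -/
def pm : ℕ → Set ℂ := fun _ => {1, -1}

/-- the bits of a selection from `{1, -1}` -/
lemma bits (a : ∀ n, pm n) : ∃ e : ℕ → Bool, sgn e = fun n => (a n : ℂ) := by
  classical
  refine ⟨fun n => decide ((a n : ℂ) = 1), ?_⟩
  funext n
  have h := (a n).2
  unfold sgn sg
  rcases h with h | h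
  · simp [h]
  · have h' : (a n : ℂ) = -1 := h
    have h2 : ¬ ((a n : ℂ) = 1) := by rw [h']; norm_num
    simp only [h2, decide_false, Bool.false_eq_true, if_false]
    rw [h']
    push_cast
    rfl

/-- from category to dimension -/
theorem dim_of_cat {P : (ℕ → ℂ) → Prop} (hP : Adm P)
    (hm : IsMeagre {a : ∀ n, pm n | P (fun n => (a n : ℂ))}) :
    1 ≤ dimH {e : ℕ → Bool | ¬ P (sgn e)} := by
  have hne : ¬ IsMeagre (Set.univ : Set (∀ n, pm n)) := by
    apply univ_not_meagre
    · intro n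
      exact (Set.toFinite {1, -1}).isClosed
    · intro n z hz
      rcases hz with rfl | hz
      · simp
      · have : z = -1 := hz
        rw [this]; simp
    · intro n
      exact ⟨1, Or.inl rfl⟩
  obtain ⟨a, ha⟩ : ∃ a : ∀ n, pm n, ¬ P (fun n => (a n : ℂ)) := by
    by_contra hcon
    push Not at hcon
    exact hne (hm.mono fun a _ => hcon a)
  obtain ⟨e, he⟩ := bits a
  exact dim_of_not hP e (by rw [he]; exact ha)

end Pool.Agent.Q93.DP
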