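import Pool.Agent.Q93.DP.Core

/-! The category theorem for bounds of Dirichlet polynomials. -/

set_option autoImplicit false

open Set Topology

namespace Pool.Agent.Q93.DP

/-- contribution of the first coefficients -/
lemma Ph_head {q : ℝ} (hq : 0 ≤ q) (S : Finset ℝ) (M N K : ℕ) (a : ℕ → ℂ) (ha : ∀ n, ‖a n‖ ≤ 1) :
    Ph q S M N (fun n => if n < K then a n else 0) ≤ (S.card : ℝ) * (K : ℝ) ^ q := by
  unfold Ph
  have h : ∀ t ∈ S, ‖D (fun n => if n < K then a n else 0) M N t‖ ^ q ≤ (K : ℝ) ^ q := by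
    intro t _
    apply Real.rpow_le_rpow (norm_nonneg _) _ hq
    unfold D
    refine (norm_sum_le _ _).trans ?_
    calc ∑ n ∈ Finset.Icc M N, ‖(if n < K then a n else 0) *
          Complex.exp (Complex.I * (t : ℂ) * (Real.log (n : ℝ) : ℂ))‖
        ≤ ∑ n ∈ Finset.Icc M N, (if n < K then (1 : ℝ) else 0) := by
          refine Finset.sum_le_sum fun n _ => ?_
          rw [norm_mul, norm_ph, mul_one]
          split_ifs
          · exact ha n
          · simp
      _ = (((Finset.Icc M N).filter (fun n => n < K)).card : ℝ) := by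
          rw [Finset.card_filter]
          push_cast
          rfl
      _ ≤ (K : ℝ) := by
          have : ((Finset.Icc M N).filter (fun n => n < K)) ⊆ Finset.range K := by
            intro n hn
            rw [Finset.mem_filter] at hn
            exact Finset.mem_range.2 hn.2
          have h2 := Finset.card_le_card this
          rw [Finset.card_range] at h2
          exact_mod_cast h2
  calc _ ≤ ∑ _t ∈ S, (K : ℝ) ^ q := Finset.sum_le_sum h
    _ = _ := by rw [Finset.sum_const, nsmul_eq_mul]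

/-- a bound for all selections in a cylinder gives a bound for all coefficients -/
lemma transfer {q : ℝ} (hq : 1 ≤ q) (Z : ℕ → Set ℂ) {δ : ℝ} (hδ : 0 < δ)
    (hZδ : ∀ n, ∃ u ∈ Z n, ∃ v ∈ Z n, δ ≤ ‖v - u‖) (y0 : ∀ n, Z n) (K : ℕ)
    (S : Finset ℝ) (M N : ℕ) {B : ℝ}
    (h : ∀ y : ∀ n, Z n, (∀ n < K, y n = y0 n) → Ph q S M N (fun n => (y n : ℂ)) ≤ B)
    (a : ℕ → ℂ) (ha : ∀ n, ‖a n‖ ≤ 1) :
    Ph q S M N a ≤ 2 ^ q * ((S.card : ℝ) * (K : ℝ) ^ q + (1 / δ) ^ q * (2 ^ q * (2 ^ q *
      (2 * (2 ^ q * (2 * B))) + 2 ^ q * (2 * (2 ^ q * (2 * B)))))) := by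
  have hq0 : 0 ≤ q := by linarith
  choose u0 hu0 v0 hv0 huv using hZδ
  obtain ⟨u, hu⟩ : ∃ u : ℕ → ℂ, u = fun n => if n < K then (y0 n : ℂ) else u0 n := ⟨_, rfl⟩
  obtain ⟨v, hv⟩ : ∃ v : ℕ → ℂ, v = fun n => if n < K then (y0 n : ℂ) else v0 n := ⟨_, rfl⟩
  have hsel : ∀ b : ℕ → ℝ, (∀ n, b n = 0 ∨ b n = 1) →
      Ph q S M N (fun n => u n + (b n : ℂ) * (v n - u n)) ≤ B := by
    intro b hb
    have hmem : ∀ n, u n + (b n : ℂ) * (v n - u n) ∈ Z n := by
      intro n
      rw [hu, hv]
      by_cases hn : n < K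
      · simp [hn]
      · simp only [if_neg hn]
        rcases hb n with hbn | hbn
        · rw [hbn]; simpa using hu0 n
        · rw [hbn]; simpa using hv0 n
    refine h (fun n => ⟨_, hmem n⟩) fun n hn => ?_
    apply Subtype.ext
    simp [hu, hv, hn]
  have hext := extreme hq S M N u v hsel
  have hu1 : Ph q S M N u ≤ B := by
    have := hext (fun _ => 0) (fun _ => by norm_num)
    simpa using this
  -- differences
  have hpsi : ∀ b : ℕ → ℝ, (∀ n, 0 ≤ b n ∧ b n ≤ 1) → ∀ c : ℂ, ‖c‖ = 1 →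
      Ph q S M N (fun n => c * ((b n : ℂ) * (v n - u n))) ≤ 2 ^ q * (2 * B) := by
    intro b hb c hc
    rw [Ph_smul, hc, Real.one_rpow, one_mul]
    have e : Ph q S M N (fun n => (b n : ℂ) * (v n - u n)) =
        Ph q S M N (fun n => (u n + (b n : ℂ) * (v n - u n)) + (-1) * u n) := by
      apply Ph_congr
      intro n _
      ring
    rw [e]
    refine (Ph_add hq0 S M N _ _).trans ?_
    apply mul_le_mul_of_nonneg_left _ (by positivity)
    rw [Ph_smul]
    have h1 := hext b hb
    simp only [norm_neg, norm_one, Real.one_rpow, one_mul]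
    linarith
  -- the coefficients beyond `K`
  obtain ⟨w, hw⟩ : ∃ w : ℕ → ℂ, w = fun n => (if n < K then 0 else a n / (v n - u n)) := ⟨_, rfl⟩
  have hwn : ∀ n, ‖w n‖ ≤ 1 / δ := by
    intro n
    rw [hw]
    by_cases hn : n < K
    · simp only [if_pos hn, norm_zero]; positivity
    · simp only [if_neg hn]
      have hd : δ ≤ ‖v n - u n‖ := by rw [hu, hv]; simp only [if_neg hn]; exact huv n
      rw [norm_div]
      exact div_le_div₀ (by norm_num) (ha n) hδ hd
  have hre : ∀ n, |δ * (w n).re| ≤ 1 := by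
    intro n
    rw [abs_mul, abs_of_pos hδ]
    have h1 := (Complex.abs_re_le_norm (w n)).trans (hwn n)
    calc δ * |(w n).re| ≤ δ * (1 / δ) := mul_le_mul_of_nonneg_left h1 hδ.le
      _ = 1 := by field_simp
  have him : ∀ n, |δ * (w n).im| ≤ 1 := by
    intro n
    rw [abs_mul, abs_of_pos hδ]
    have h1 := (Complex.abs_im_le_norm (w n)).trans (hwn n)
    calc δ * |(w n).im| ≤ δ * (1 / δ) := mul_le_mul_of_nonneg_left h1 hδ.le
      _ = 1 := by field_simp
  have hpart : ∀ x : ℝ, |x| ≤ 1 → (0 ≤ max x 0 ∧ max x 0 ≤ 1) ∧ (0 ≤ max (-x) 0 ∧ max (-x) 0 ≤ 1) := by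
    intro x hx
    rw [abs_le] at hx
    exact ⟨⟨le_max_right _ _, max_le hx.2 (by norm_num)⟩,
      ⟨le_max_right _ _, max_le (by linarith) (by norm_num)⟩⟩
  have hmm : ∀ x : ℝ, x = max x 0 - max (-x) 0 := by
    intro x
    rcases le_total 0 x with h | h
    · rw [max_eq_left h, max_eq_right (by linarith)]; ring
    · rw [max_eq_right h, max_eq_left (by linarith)]; ring
  have htail : Ph q S M N (fun n => if n < K then 0 else a n) ≤ (1 / δ) ^ q * (2 ^ q * (2 ^ q *
      (2 * (2 ^ q * (2 * B))) + 2 ^ q * (2 * (2 ^ q * (2 * B))))) := by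
    have e : Ph q S M N (fun n => if n < K then 0 else a n) = Ph q S M N (fun n =>
        ((1 / δ : ℝ) : ℂ) * ((
          (1 * ((max (δ * (w n).re) 0 : ℝ) * (v n - u n)) +
            (-1) * ((max (-(δ * (w n).re)) 0 : ℝ) * (v n - u n))) +
          (Complex.I * ((max (δ * (w n).im) 0 : ℝ) * (v n - u n)) +
            (-Complex.I) * ((max (-(δ * (w n).im)) 0 : ℝ) * (v n - u n)))))) := by
      apply Ph_congr
      intro n _
      have e1 : ((1 / δ : ℝ) : ℂ) * ((
          (1 * ((max (δ * (w n).re) 0 : ℝ) * (v n - u n)) +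
            (-1) * ((max (-(δ * (w n).re)) 0 : ℝ) * (v n - u n))) +
          (Complex.I * ((max (δ * (w n).im) 0 : ℝ) * (v n - u n)) +
            (-Complex.I) * ((max (-(δ * (w n).im)) 0 : ℝ) * (v n - u n))))) =
          ((1 / δ : ℝ) : ℂ) * ((((max (δ * (w n).re) 0 - max (-(δ * (w n).re)) 0 : ℝ) : ℂ) +
            Complex.I * ((max (δ * (w n).im) 0 - max (-(δ * (w n).im)) 0 : ℝ) : ℂ)) *
              (v n - u n)) := by
        push_cast
        ring
      rw [e1, ← hmm, ← hmm]
      have e2 : (((δ * (w n).re : ℝ) : ℂ) + Complex.I * ((δ * (w n).im : ℝ) : ℂ)) = (δ : ℂ) * w n := by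
        conv_rhs => rw [← Complex.re_add_im (w n)]
        push_cast
        ring
      rw [e2]
      have hδc : (δ : ℂ) ≠ 0 := by exact_mod_cast hδ.ne'
      have e3 : ((1 / δ : ℝ) : ℂ) * ((δ : ℂ) * w n * (v n - u n)) = w n * (v n - u n) := by
        push_cast
        field_simp
      rw [e3, hw]
      by_cases hn : n < K
      · simp [hn]
      · simp only [if_neg hn]
        have hd : δ ≤ ‖v n - u n‖ := by rw [hu, hv]; simp only [if_neg hn]; exact huv n
        have hne : v n - u n ≠ 0 := by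
          intro h0
          rw [h0, norm_zero] at hd
          linarith
        rw [div_mul_cancel₀ _ hne]
    rw [e, Ph_smul]
    have hn1 : ‖((1 / δ : ℝ) : ℂ)‖ = 1 / δ := by
      rw [Complex.norm_real, Real.norm_of_nonneg (by positivity)]
    rw [hn1]
    apply mul_le_mul_of_nonneg_left _ (by positivity)
    refine (Ph_add hq0 S M N _ _).trans ?_
    apply mul_le_mul_of_nonneg_left _ (by positivity)
    apply add_le_add
    · refine (Ph_add hq0 S M N _ _).trans ?_
      apply mul_le_mul_of_nonneg_left _ (by positivity)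
      have h1 := hpsi (fun n => max (δ * (w n).re) 0) (fun n => (hpart _ (hre n)).1) 1 (by simp)
      have h2 := hpsi (fun n => max (-(δ * (w n).re)) 0) (fun n => (hpart _ (hre n)).2) (-1)
        (by simp)
      linarith
    · refine (Ph_add hq0 S M N _ _).trans ?_
      apply mul_le_mul_of_nonneg_left _ (by positivity)
      have h1 := hpsi (fun n => max (δ * (w n).im) 0) (fun n => (hpart _ (him n)).1) Complex.I
        (by simp)
      have h2 := hpsi (fun n => max (-(δ * (w n).im)) 0) (fun n => (hpart _ (him n)).2)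
        (-Complex.I) (by simp)
      linarith
  have e : Ph q S M N a = Ph q S M N (fun n => (if n < K then a n else 0) +
      (if n < K then 0 else a n)) := by
    apply Ph_congr
    intro n _
    by_cases hn : n < K <;> simp [hn]
  rw [e]
  refine (Ph_add hq0 S M N _ _).trans ?_
  apply mul_le_mul_of_nonneg_left _ (by positivity)
  exact add_le_add (Ph_head hq0 S M N K a ha) htail

section

variable {X : Type*} (M N : X → ℕ) (S : X → Finset ℝ) (g : X → ℝ) (q : ℝ)

/-- the bound for one coefficient sequence -/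
def Bd (a : ℕ → ℂ) : Prop := ∃ C : ℝ, ∀ x, Ph q (S x) (M x) (N x) a ≤ C * g x

/-- the bound uniformly in all coefficients of modulus at most one -/
def UBd : Prop := ∃ C : ℝ, ∀ x, ∀ a : ℕ → ℂ, (∀ n, ‖a n‖ ≤ 1) →
  Ph q (S x) (M x) (N x) a ≤ C * g x

end

lemma cont_Ph {Z : ℕ → Set ℂ} {q : ℝ} (hq : 0 ≤ q) (S : Finset ℝ) (M N : ℕ) :
    Continuous fun y : ∀ n, Z n => Ph q S M N (fun n => (y n : ℂ)) := by
  unfold Ph D
  apply continuous_finsetSum
  intro t _
  apply Continuous.rpow_const _ (fun _ => Or.inr hq)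
  apply Continuous.norm
  apply continuous_finsetSum
  intro n _
  exact (continuous_subtype_val.comp (continuous_apply n)).mul continuous_const

/-- **Category theorem**: if the bound is not uniform, then the selections for which it holds are
meagre. -/
theorem meagre_of_not {X : Type*} (M N : X → ℕ) (S : X → Finset ℝ) (g : X → ℝ) {q : ℝ}
    (hq : 1 ≤ q) {c : ℝ} (hc : 0 < c) (hg : ∀ x, 0 < g x) (hgS : ∀ x, c * (S x).card ≤ g x)
    (Z : ℕ → Set ℂ) {δ : ℝ} (hδ : 0 < δ) (hZδ : ∀ n, ∃ u ∈ Z n, ∃ v ∈ Z n, δ ≤ ‖v - u‖)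
    (h : ¬ UBd M N S g q) :
    IsMeagre {y : ∀ n, Z n | Bd M N S g q (fun n => (y n : ℂ))} := by
  have hm := hump (fun (x : X) (y : ∀ n, Z n) => Ph q (S x) (M x) (N x) (fun n => (y n : ℂ)) / g x)
    (fun x => (cont_Ph (by linarith) _ _ _).div_const _) ?_
  · refine IsMeagre.mono ?_ hm
    rintro y ⟨C, hC⟩
    exact ⟨C, fun x => by rw [div_le_iff₀ (hg x)]; exact hC x⟩
  · intro y0 K C
    by_contra hcon
    push Not at hcon
    apply h
    refine ⟨2 ^ q * ((K : ℝ) ^ q / c + (1 / δ) ^ q * (2 ^ q * (2 ^ q *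
      (2 * (2 ^ q * (2 * C))) + 2 ^ q * (2 * (2 ^ q * (2 * C)))))), fun x a ha => ?_⟩
    have h1 := transfer hq Z hδ hZδ y0 K (S x) (M x) (N x) (B := C * g x) (fun y hy => by
      have := hcon y hy x
      rwa [div_le_iff₀ (hg x)] at this) a ha
    refine h1.trans ?_
    have h2 : ((S x).card : ℝ) * (K : ℝ) ^ q ≤ (K : ℝ) ^ q / c * g x := by
      have h3 := hgS x
      have h4 : 0 ≤ (K : ℝ) ^ q := by positivity
      rw [div_mul_eq_mul_div, le_div_iff₀ hc]
      nlinarith
    calc _ ≤ 2 ^ q * ((K : ℝ) ^ q / c * g x + (1 / δ) ^ q * (2 ^ q * (2 ^ q *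
      (2 * (2 ^ q * (2 * (C * g x)))) + 2 ^ q * (2 * (2 ^ q * (2 * (C * g x))))))) := by
          apply mul_le_mul_of_nonneg_left _ (by positivity)
          linarith
      _ = _ := by ring

lemma univ_not_meagre {Z : ℕ → Set ℂ} (hZc : ∀ n, IsClosed (Z n)) (hZ1 : ∀ n, ∀ z ∈ Z n, ‖z‖ ≤ 1)
    (hne : ∀ n, (Z n).Nonempty) : ¬ IsMeagre (Set.univ : Set (∀ n, Z n)) := by
  have : ∀ n, CompactSpace (Z n) := by
    intro n
    apply isCompact_iff_compactSpace.1
    exact (isCompact_closedBall (0 : ℂ) 1).of_isClosed_subset (hZc n) fun z hz => by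
      rw [Metric.mem_closedBall, dist_zero_right]; exact hZ1 n z hz
  have : ∀ n, Nonempty (Z n) := fun n => (hne n).to_subtype
  exact not_isMeagre_of_isOpen isOpen_univ Set.univ_nonempty

end Pool.Agent.Q93.DP
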