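import Mathlib

/-! Dirichlet polynomials: generic coefficient sequences decide bounds that are uniform in the
coefficients. -/

set_option autoImplicit false

open Set Topology

namespace Pool.Agent.Q93.DP

/-- **Gliding hump** in a product of topological spaces. -/
theorem hump {X : Type*} {Y : ℕ → Type*} [∀ k, TopologicalSpace (Y k)]
    (F : X → (∀ k, Y k) → ℝ) (hF : ∀ x, Continuous (F x))
    (h : ∀ (y0 : ∀ k, Y k) (K : ℕ) (C : ℝ), ∃ y : ∀ k, Y k, (∀ k < K, y k = y0 k) ∧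
      ∃ x, C < F x y) :
    IsMeagre {y : ∀ k, Y k | ∃ C : ℝ, ∀ x, F x y ≤ C} := by
  have hsub : {y : ∀ k, Y k | ∃ C : ℝ, ∀ x, F x y ≤ C} ⊆ ⋃ n : ℕ, {y | ∀ x, F x y ≤ n} := by
    rintro y ⟨C, hC⟩
    obtain ⟨n, hn⟩ := exists_nat_ge C
    exact mem_iUnion.2 ⟨n, fun x => (hC x).trans hn⟩
  refine IsMeagre.mono hsub ?_
  apply isMeagre_iUnion
  intro n
  apply IsNowhereDense.isMeagre
  have hcl : IsClosed {y : ∀ k, Y k | ∀ x, F x y ≤ n} := by
    have e : {y : ∀ k, Y k | ∀ x, F x y ≤ n} = ⋂ x, {y | F x y ≤ n} := by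
      ext y; simp only [Set.mem_ofPred_eq, mem_iInter]
    rw [e]
    exact isClosed_iInter fun x => isClosed_le (hF x) continuous_const
  rw [hcl.isNowhereDense_iff]
  rw [eq_empty_iff_forall_notMem]
  intro y0 hy0
  rw [mem_interior] at hy0
  obtain ⟨V, hV, hVo, hyV⟩ := hy0
  rw [isOpen_pi_iff] at hVo
  obtain ⟨I, u, hu, hIV⟩ := hVo y0 hyV
  obtain ⟨K, hK⟩ : ∃ K : ℕ, ∀ i ∈ I, i < K :=
    ⟨I.sup id + 1, fun i hi => Nat.lt_succ_of_le (Finset.le_sup (f := id) hi)⟩
  obtain ⟨y, hy, x, hx⟩ := h y0 K n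
  have hyV' : y ∈ V := by
    apply hIV
    intro i hi
    rw [hy i (hK i hi)]
    exact (hu i hi).2
  exact absurd (hV hyV' x) (not_le.2 hx)

/-- `∑_{M ≤ n ≤ N} a_n n^{it}` -/
noncomputable def D (a : ℕ → ℂ) (M N : ℕ) (t : ℝ) : ℂ :=
  ∑ n ∈ Finset.Icc M N, a n * Complex.exp (Complex.I * (t : ℂ) * (Real.log (n : ℝ) : ℂ))

lemma norm_ph (t : ℝ) (n : ℕ) :
    ‖Complex.exp (Complex.I * (t : ℂ) * (Real.log (n : ℝ) : ℂ))‖ = 1 := by
  have : Complex.I * (t : ℂ) * (Real.log (n : ℝ) : ℂ) = ((t * Real.log n : ℝ) : ℂ) * Complex.I := by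
    push_cast; ring
  rw [this, Complex.norm_exp_ofReal_mul_I]

lemma D_congr {a b : ℕ → ℂ} {M N : ℕ} (h : ∀ n ∈ Finset.Icc M N, a n = b n) (t : ℝ) :
    D a M N t = D b M N t := by
  unfold D
  exact Finset.sum_congr rfl fun n hn => by rw [h n hn]

lemma D_add (a b : ℕ → ℂ) (M N : ℕ) (t : ℝ) :
    D (fun n => a n + b n) M N t = D a M N t + D b M N t := by
  unfold D
  rw [← Finset.sum_add_distrib]
  exact Finset.sum_congr rfl fun n _ => by ring

lemma D_smul (c : ℂ) (a : ℕ → ℂ) (M N : ℕ) (t : ℝ) :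
    D (fun n => c * a n) M N t = c * D a M N t := by
  unfold D
  rw [Finset.mul_sum]
  exact Finset.sum_congr rfl fun n _ => by ring

/-- the `q`-th power sum over a finite set of points -/
noncomputable def Ph (q : ℝ) (S : Finset ℝ) (M N : ℕ) (a : ℕ → ℂ) : ℝ :=
  ∑ t ∈ S, ‖D a M N t‖ ^ q

lemma Ph_nonneg (q : ℝ) (S : Finset ℝ) (M N : ℕ) (a : ℕ → ℂ) : 0 ≤ Ph q S M N a :=
  Finset.sum_nonneg fun _ _ => Real.rpow_nonneg (norm_nonneg _) _

lemma Ph_congr {q : ℝ} {S : Finset ℝ} {M N : ℕ} {a b : ℕ → ℂ} (h : ∀ n ∈ Finset.Icc M N, a n = b n) :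
    Ph q S M N a = Ph q S M N b := by
  unfold Ph
  exact Finset.sum_congr rfl fun t _ => by rw [D_congr h]

lemma rpow_add_le {q x y : ℝ} (hq : 0 ≤ q) (hx : 0 ≤ x) (hy : 0 ≤ y) :
    (x + y) ^ q ≤ 2 ^ q * (x ^ q + y ^ q) := by
  have hm : 0 ≤ max x y := le_max_of_le_left hx
  have h1 : (x + y) ^ q ≤ (2 * max x y) ^ q := by
    apply Real.rpow_le_rpow (by positivity) _ hq
    have := le_max_left x y
    have := le_max_right x y
    linarith
  rw [Real.mul_rpow (by norm_num) hm] at h1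
  refine h1.trans (mul_le_mul_of_nonneg_left ?_ (by positivity))
  rcases le_total x y with h | h
  · rw [max_eq_right h]
    have := Real.rpow_nonneg hx q
    linarith
  · rw [max_eq_left h]
    have := Real.rpow_nonneg hy q
    linarith

/-- quasi-triangle inequality -/
lemma Ph_add {q : ℝ} (hq : 0 ≤ q) (S : Finset ℝ) (M N : ℕ) (a b : ℕ → ℂ) :
    Ph q S M N (fun n => a n + b n) ≤ 2 ^ q * (Ph q S M N a + Ph q S M N b) := by
  unfold Ph
  rw [← Finset.sum_add_distrib, Finset.mul_sum]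
  refine Finset.sum_le_sum fun t _ => ?_
  rw [D_add]
  exact (Real.rpow_le_rpow (norm_nonneg _) (norm_add_le _ _) hq).trans
    (rpow_add_le hq (norm_nonneg _) (norm_nonneg _))

lemma Ph_smul {q : ℝ} (c : ℂ) (S : Finset ℝ) (M N : ℕ) (a : ℕ → ℂ) :
    Ph q S M N (fun n => c * a n) = ‖c‖ ^ q * Ph q S M N a := by
  unfold Ph
  rw [Finset.mul_sum]
  refine Finset.sum_congr rfl fun t _ => ?_
  rw [D_smul, norm_mul, Real.mul_rpow (norm_nonneg _) (norm_nonneg _)]

/-- convexity -/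
lemma Ph_conv {q : ℝ} (hq : 1 ≤ q) (S : Finset ℝ) (M N : ℕ) (a b : ℕ → ℂ) {l B : ℝ} (h0 : 0 ≤ l)
    (h1 : l ≤ 1) (ha : Ph q S M N a ≤ B) (hb : Ph q S M N b ≤ B) :
    Ph q S M N (fun n => (1 - (l : ℂ)) * a n + (l : ℂ) * b n) ≤ B := by
  have key : Ph q S M N (fun n => (1 - (l : ℂ)) * a n + (l : ℂ) * b n) ≤
      (1 - l) * Ph q S M N a + l * Ph q S M N b := by
    unfold Ph
    rw [Finset.mul_sum, Finset.mul_sum, ← Finset.sum_add_distrib]
    refine Finset.sum_le_sum fun t _ => ?_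
    rw [D_add, D_smul, D_smul]
    have e1 : ‖(1 - (l : ℂ)) * D a M N t + (l : ℂ) * D b M N t‖ ≤
        (1 - l) * ‖D a M N t‖ + l * ‖D b M N t‖ := by
      refine (norm_add_le _ _).trans (le_of_eq ?_)
      rw [norm_mul, norm_mul, Complex.norm_real, Real.norm_of_nonneg h0]
      have : (1 - (l : ℂ)) = ((1 - l : ℝ) : ℂ) := by push_cast; ring
      rw [this, Complex.norm_real, Real.norm_of_nonneg (by linarith)]
    refine (Real.rpow_le_rpow (norm_nonneg _) e1 (by linarith)).trans ?_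
    have hc := (convexOn_rpow hq).2 (Set.mem_Ici.2 (norm_nonneg (D a M N t)))
      (Set.mem_Ici.2 (norm_nonneg (D b M N t))) (show (0 : ℝ) ≤ 1 - l by linarith) h0 (by ring)
    simpa [smul_eq_mul] using hc
  refine key.trans ?_
  nlinarith

/-- extreme points: selections `u + b (v - u)` with `b ∈ {0,1}` -/
lemma extreme {q : ℝ} (hq : 1 ≤ q) (S : Finset ℝ) (M N : ℕ) (u v : ℕ → ℂ) {B : ℝ}
    (h : ∀ b : ℕ → ℝ, (∀ n, b n = 0 ∨ b n = 1) →
      Ph q S M N (fun n => u n + (b n : ℂ) * (v n - u n)) ≤ B) :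
    ∀ b : ℕ → ℝ, (∀ n, 0 ≤ b n ∧ b n ≤ 1) →
      Ph q S M N (fun n => u n + (b n : ℂ) * (v n - u n)) ≤ B := by
  have key : ∀ J : Finset ℕ, ∀ b : ℕ → ℝ, (∀ n, 0 ≤ b n ∧ b n ≤ 1) →
      (∀ n, n ∉ J → b n = 0 ∨ b n = 1) →
      Ph q S M N (fun n => u n + (b n : ℂ) * (v n - u n)) ≤ B := by
    intro J
    induction J using Finset.induction_on with
    | empty => exact fun b _ hb => h b fun n => hb n (by simp)
    | insert j J hj ih =>
      intro b hb hbJ
      have g0 := ih (Function.update b j 0) (by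
        intro n
        by_cases hn : n = j
        · subst hn; simp
        · rw [Function.update_of_ne hn]; exact hb n) (by
        intro n hn
        by_cases hnj : n = j
        · subst hnj; simp
        · rw [Function.update_of_ne hnj]; exact hbJ n (by simp [hnj, hn]))
      have g1 := ih (Function.update b j 1) (by
        intro n
        by_cases hn : n = j
        · subst hn; simp
        · rw [Function.update_of_ne hn]; exact hb n) (by
        intro n hn
        by_cases hnj : n = j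
        · subst hnj; simp
        · rw [Function.update_of_ne hnj]; exact hbJ n (by simp [hnj, hn]))
      have g := Ph_conv hq S M N _ _ (hb j).1 (hb j).2 g0 g1
      refine le_trans (le_of_eq ?_) g
      apply Ph_congr
      intro n _
      by_cases hn : n = j
      · subst hn
        simp only [Function.update_self]
        push_cast; ring
      · simp only [Function.update_of_ne hn]
        ring
  intro b hb
  have e : Ph q S M N (fun n => u n + (b n : ℂ) * (v n - u n)) =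
      Ph q S M N (fun n => u n + (((if n ∈ Finset.Icc M N then b n else 0 : ℝ)) : ℂ) * (v n - u n)) := by
    apply Ph_congr
    intro n hn
    rw [if_pos hn]
  rw [e]
  apply key (Finset.Icc M N)
  · intro n
    split_ifs
    · exact hb n
    · simp
  · intro n hn
    left
    rw [if_neg hn]

end Pool.Agent.Q93.DP
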