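import Pool.Agent.Q93.DP.Adm

/-! Small sequences: pointwise bounds in dyadic windows. -/

set_option autoImplicit false

namespace Pool.Agent.Q93.DP

lemma D_split (a : ℕ → ℂ) (N : ℕ) (hN : 1 ≤ N) (t : ℝ) :
    D a N (2 * N) t = D a 1 (2 * N) t - D a 1 (N - 1) t := by
  unfold D
  rw [eq_sub_iff_add_eq, add_comm, ← Finset.sum_union]
  · apply Finset.sum_congr _ fun _ _ => rfl
    ext n
    simp only [Finset.mem_union, Finset.mem_Icc]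
    omega
  · rw [Finset.disjoint_left]
    intro n hn hn2
    rw [Finset.mem_Icc] at hn hn2
    omega

theorem small_dyadic {a : ℕ → ℂ} (h : Small a) (A ε : ℝ) (hε : 0 < ε) :
    ∃ C : ℝ, 0 ≤ C ∧ ∀ N : ℕ, 1 ≤ N → ∀ t : ℝ, |t| ≤ (N : ℝ) ^ A →
      ‖D a N (2 * N) t‖ ^ 2 ≤ C * ((N : ℝ) ^ ε * N) := by
  obtain ⟨C, hC0, hC⟩ := h
  obtain ⟨δ, hδ⟩ : ∃ δ : ℝ, δ = ε / (|A| + 1) := ⟨_, rfl⟩
  have hA1 : 0 < |A| + 1 := by positivity
  have hδ0 : 0 < δ := by rw [hδ]; positivity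
  refine ⟨6 * C * (5 ^ δ / δ), by positivity, fun N hN t ht => ?_⟩
  have hN1 : (1 : ℝ) ≤ N := by exact_mod_cast hN
  have hN0 : (0 : ℝ) < N := by linarith
  rw [D_split a N hN t]
  have h1 := hC (2 * N) t
  have h2 := hC (N - 1) t
  have h3 : ‖D a 1 (2 * N) t - D a 1 (N - 1) t‖ ^ 2 ≤
      2 * ‖D a 1 (2 * N) t‖ ^ 2 + 2 * ‖D a 1 (N - 1) t‖ ^ 2 := by
    have h4 := norm_sub_le (D a 1 (2 * N) t) (D a 1 (N - 1) t)
    have h5 : ‖D a 1 (2 * N) t - D a 1 (N - 1) t‖ ^ 2 ≤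
        (‖D a 1 (2 * N) t‖ + ‖D a 1 (N - 1) t‖) ^ 2 := pow_le_pow_left₀ (norm_nonneg _) h4 2
    nlinarith [sq_nonneg (‖D a 1 (2 * N) t‖ - ‖D a 1 (N - 1) t‖)]
  have ht0 : 0 ≤ |t| := abs_nonneg t
  have hL : Real.log (2 * N + |t| + 2) ≤ 5 ^ δ / δ * (N : ℝ) ^ ε := by
    have h4 : 2 * (N : ℝ) + |t| + 2 ≤ 5 * (N : ℝ) ^ (|A| + 1) := by
      have h5 : |t| ≤ (N : ℝ) ^ (|A| + 1) := ht.trans
        (Real.rpow_le_rpow_of_exponent_le hN1 (by linarith [le_abs_self A]))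
      have h6 : (N : ℝ) ≤ (N : ℝ) ^ (|A| + 1) := by
        calc (N : ℝ) = (N : ℝ) ^ (1 : ℝ) := (Real.rpow_one _).symm
          _ ≤ _ := Real.rpow_le_rpow_of_exponent_le hN1 (by linarith [abs_nonneg A])
      linarith
    calc Real.log (2 * N + |t| + 2) ≤ Real.log (5 * (N : ℝ) ^ (|A| + 1)) :=
          Real.log_le_log (by positivity) h4
      _ ≤ (5 * (N : ℝ) ^ (|A| + 1)) ^ δ / δ := Real.log_le_rpow_div (by positivity) hδ0
      _ = 5 ^ δ / δ * (N : ℝ) ^ ε := by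
          rw [Real.mul_rpow (by norm_num) (by positivity), ← Real.rpow_mul hN0.le]
          have : (|A| + 1) * δ = ε := by rw [hδ]; field_simp
          rw [this]
          ring
  have hl0 : 0 ≤ Real.log (2 * N + |t| + 2) := Real.log_nonneg (by linarith)
  have h6 : ((N - 1 : ℕ) : ℝ) ≤ N := by exact_mod_cast Nat.sub_le N 1
  have h7 : Real.log (((N - 1 : ℕ) : ℝ) + |t| + 2) ≤ Real.log (2 * N + |t| + 2) := by
    apply Real.log_le_log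
    · have : (0 : ℝ) ≤ ((N - 1 : ℕ) : ℝ) := Nat.cast_nonneg _
      linarith
    · linarith
  have h7' : 0 ≤ Real.log (((N - 1 : ℕ) : ℝ) + |t| + 2) := Real.log_nonneg (by
    have : (0 : ℝ) ≤ ((N - 1 : ℕ) : ℝ) := Nat.cast_nonneg _
    linarith)
  have h8 : ((N - 1 : ℕ) : ℝ) * Real.log (((N - 1 : ℕ) : ℝ) + |t| + 2) ≤
      N * Real.log (2 * N + |t| + 2) := mul_le_mul h6 h7 h7' hN0.le
  push_cast at h1
  have h9 : 2 * ‖D a 1 (2 * N) t‖ ^ 2 + 2 * ‖D a 1 (N - 1) t‖ ^ 2 ≤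
      6 * C * (N * Real.log (2 * N + |t| + 2)) := by
    have h10 := mul_le_mul_of_nonneg_left h8 hC0
    linarith
  refine h3.trans (h9.trans ?_)
  calc 6 * C * (N * Real.log (2 * N + |t| + 2)) ≤ 6 * C * (N * (5 ^ δ / δ * (N : ℝ) ^ ε)) := by
        apply mul_le_mul_of_nonneg_left _ (by positivity)
        exact mul_le_mul_of_nonneg_left hL hN0.le
    _ = _ := by ring

end Pool.Agent.Q93.DP
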