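import Pool.Agent.Q93.DP.Adm

/-! Sets of integers: category, dimension, measure. -/

set_option autoImplicit false

open MeasureTheory ProbabilityTheory ENNReal

namespace Pool.Agent.Q93.DP

attribute [local instance] PiNat.metricSpace

/-- the category theorem for sequences parametrised by a product of topological spaces -/
theorem meagre_of_not' {X : Type*} (M N : X → ℕ) (S : X → Finset ℝ) (g : X → ℝ) {q : ℝ}
    (hq : 1 ≤ q) {c : ℝ} (hc : 0 < c) (hg : ∀ x, 0 < g x) (hgS : ∀ x, c * (S x).card ≤ g x)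
    {Y : ℕ → Type} [∀ n, TopologicalSpace (Y n)] (φ : ∀ n, Y n → ℂ) (hφ : ∀ n, Continuous (φ n))
    {δ : ℝ} (hδ : 0 < δ) (hZδ : ∀ n, ∃ u v, δ ≤ ‖φ n v - φ n u‖) (h : ¬ UBd M N S g q) :
    IsMeagre {y : ∀ n, Y n | Bd M N S g q (fun n => φ n (y n))} := by
  have hm := hump (fun (x : X) (y : ∀ n, Y n) => Ph q (S x) (M x) (N x) (fun n => φ n (y n)) / g x)
    (fun x => ?_) ?_
  · refine IsMeagre.mono ?_ hm
    rintro y ⟨C, hC⟩
    exact ⟨C, fun x => by rw [div_le_iff₀ (hg x)]; exact hC x⟩
  · apply Continuous.div_const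
    unfold Ph D
    apply continuous_finsetSum
    intro t _
    apply Continuous.rpow_const _ (fun _ => Or.inr (by linarith))
    apply Continuous.norm
    apply continuous_finsetSum
    intro n _
    exact ((hφ n).comp (continuous_apply n)).mul continuous_const
  · intro y0 K C
    by_contra hcon
    push Not at hcon
    apply h
    refine ⟨2 ^ q * ((K : ℝ) ^ q / c + (1 / δ) ^ q * (2 ^ q * (2 ^ q *
      (2 * (2 ^ q * (2 * C))) + 2 ^ q * (2 * (2 ^ q * (2 * C)))))), fun x a ha => ?_⟩
    have h1 := transfer hq (fun n => Set.range (φ n)) hδ (fun n => by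
      obtain ⟨u, v, huv⟩ := hZδ n
      exact ⟨_, ⟨u, rfl⟩, _, ⟨v, rfl⟩, huv⟩) (fun n => ⟨φ n (y0 n), y0 n, rfl⟩) K (S x) (M x) (N x)
      (B := C * g x) (fun z hz => by
        choose w hw using fun n => (z n).2
        have hc1 := hcon (fun n => if n < K then y0 n else w n) (fun n hn => by simp [hn]) x
        rw [div_le_iff₀ (hg x)] at hc1
        refine le_trans (le_of_eq ?_) hc1
        congr 1
        funext n
        by_cases hn : n < K
        · simp only [if_pos hn]
          rw [hz n hn]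
        · simp only [if_neg hn]
          exact (hw n).symm) a ha
    refine h1.trans ?_
    have h2 : ((S x).card : ℝ) * (K : ℝ) ^ q ≤ (K : ℝ) ^ q / c * g x := by
      have h3 := hgS x
      have h4 : 0 ≤ (K : ℝ) ^ q := by positivity
      rw [div_mul_eq_mul_div, le_div_iff₀ hc]
      nlinarith
    calc _ ≤ 2 ^ q * ((K : ℝ) ^ q / c * g x + (1 / δ) ^ q * (2 ^ q * (2 ^ q *
      (2 * (2 ^ q * (2 * (C * g x)))) + 2 ^ q * (2 * (2 ^ q * (2 * (C * g x))))))) := by
          apply mul_le_mul_of_nonneg_left _ (by positivity)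
          linarith
      _ = _ := by ring

/-- the indicator of a set of integers -/
noncomputable def ind (e : ℕ → Bool) (n : ℕ) : ℂ := if e n then 1 else 0

lemma ind_eq (e : ℕ → Bool) : ind e = fun n => (1 / 2 : ℂ) * 1 + (1 / 2 : ℂ) * sgn e n := by
  funext n
  unfold ind sgn sg
  cases e n
  · norm_num
  · norm_num

/-- product measures: the exceptional set contains a set of full measure -/
theorem dim_ind_aux {P : (ℕ → ℂ) → Prop} (hP : Adm P) (e0 : ℕ → Bool)
    (h0 : ∀ η : ℝ, 0 < η → ¬ P (fun n => (1 / 2 : ℂ) + (1 / 2 : ℂ) * ((η : ℂ) * sgn e0 n))) :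
    1 ≤ dimH {e : ℕ → Bool | ¬ P (ind e)} := by
  have key : ∀ s : NNReal, 0 < s → s < 1 → (s : ℝ≥0∞) ≤ dimH {e : ℕ → Bool | ¬ P (ind e)} := by
    intro s hs0 hs1
    have hs0' : (0 : ℝ) < s := by exact_mod_cast hs0
    have hs1' : (s : ℝ) < 1 := by exact_mod_cast hs1
    obtain ⟨η, hη⟩ : ∃ η : ℝ, η = 2 * (1 / 2 : ℝ) ^ (s : ℝ) - 1 := ⟨_, rfl⟩
    have hη0 : 0 < η := by
      have : (1 / 2 : ℝ) ^ (1 : ℝ) < (1 / 2 : ℝ) ^ (s : ℝ) :=
        Real.rpow_lt_rpow_of_exponent_gt (by norm_num) (by norm_num) hs1'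
      rw [Real.rpow_one] at this
      linarith
    have hη1 : η ≤ 1 := by
      have : (1 / 2 : ℝ) ^ (s : ℝ) ≤ 1 := Real.rpow_le_one (by norm_num) (by norm_num) hs0'.le
      linarith
    have habs : ∀ n, |η * sg (e0 n)| ≤ η := by
      intro n
      rw [abs_mul, abs_of_pos hη0]
      have : |sg (e0 n)| = 1 := by unfold sg; split_ifs <;> simp
      rw [this, mul_one]
    have hprob : ∀ n, IsProbabilityMeasure (law (η * sg (e0 n))) := fun n =>
      law_prob ((habs n).trans hη1)
    have hmass := mass (Measure.infinitePi fun n => law (η * sg (e0 n))) hs0 ?_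
      (A := {e : ℕ → Bool | ¬ P (ind e)}) ?_
    · exact hmass
    · intro x n
      rw [PiNat.cylinder_eq_pi]
      rw [Measure.infinitePi_pi _ (fun i _ => measurableSet_singleton _)]
      calc ∏ i ∈ Finset.range n, (law (η * sg (e0 i))) {x i}
          ≤ ∏ _i ∈ Finset.range n, ENNReal.ofReal ((1 + η) / 2) :=
            Finset.prod_le_prod' fun i _ => law_singleton (habs i) _
        _ = ENNReal.ofReal ((1 + η) / 2) ^ n := by rw [Finset.prod_const, Finset.card_range]
        _ = _ := by
            have h1 : (1 + η) / 2 = (1 / 2 : ℝ) ^ (s : ℝ) := by rw [hη]; ring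
            rw [h1, ← ENNReal.ofReal_pow (by positivity),
              ENNReal.ofReal_rpow_of_nonneg (by positivity) hs0'.le]
            congr 1
            rw [← Real.rpow_natCast, ← Real.rpow_natCast, ← Real.rpow_mul (by norm_num),
              ← Real.rpow_mul (by norm_num), mul_comm]
    · have hi : iIndepFun (fun n (ω : ℕ → Bool) => (1 / 2 : ℂ) + (1 / 2 : ℂ) * ((sg (ω n) : ℝ) : ℂ))
          (Measure.infinitePi fun n => law (η * sg (e0 n))) :=
        iIndepFun_infinitePi (X := fun _ b => (1 / 2 : ℂ) + (1 / 2 : ℂ) * ((sg b : ℝ) : ℂ))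
          (fun _ => Measurable.of_discrete)
      have hb : ∀ n (ω : ℕ → Bool), ‖(1 / 2 : ℂ) + (1 / 2 : ℂ) * ((sg (ω n) : ℝ) : ℂ)‖ ≤ 1 := by
        intro n ω
        unfold sg
        cases ω n
        · norm_num
        · norm_num
      have hm : ∀ n, Measurable (fun (ω : ℕ → Bool) =>
          (1 / 2 : ℂ) + (1 / 2 : ℂ) * ((sg (ω n) : ℝ) : ℂ)) := fun n =>
        (Measurable.of_discrete
          (f := fun b : Bool => (1 / 2 : ℂ) + (1 / 2 : ℂ) * ((sg b : ℝ) : ℂ))).comp
          (measurable_pi_apply n)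
      have hmean : ∀ n, ∫ ω, ((1 / 2 : ℂ) + (1 / 2 : ℂ) * ((sg (ω n) : ℝ) : ℂ))
          ∂(Measure.infinitePi fun n => law (η * sg (e0 n))) =
          (1 / 2 : ℂ) + (1 / 2 : ℂ) * ((η : ℂ) * sgn e0 n) := by
        intro n
        have hmp := measurePreserving_eval_infinitePi (fun n => law (η * sg (e0 n))) n
        have h2 : ∫ ω, ((1 / 2 : ℂ) + (1 / 2 : ℂ) * ((sg (ω n) : ℝ) : ℂ))
            ∂(Measure.infinitePi fun n => law (η * sg (e0 n))) =
            ∫ b, ((1 / 2 : ℂ) + (1 / 2 : ℂ) * ((sg b : ℝ) : ℂ)) ∂(law (η * sg (e0 n))) := by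
          rw [← hmp.map_eq, integral_map hmp.measurable.aemeasurable
            (Measurable.of_discrete.aestronglyMeasurable)]
        have hfin : Integrable (fun b : Bool => (1 / 2 : ℂ) * ((sg b : ℝ) : ℂ))
          (law (η * sg (e0 n))) := Integrable.of_finite
        rw [h2, integral_add (integrable_const _) hfin, integral_const, integral_const_mul,
          law_mean ((habs n).trans hη1), probReal_univ, one_smul]
        unfold sgn
        push_cast
        rfl
      have has := as_iff hP hm hi hb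
      have hall : ∀ᵐ e ∂(Measure.infinitePi fun n => law (η * sg (e0 n))), ¬ P (ind e) := by
        filter_upwards [has] with e he hcon
        have h3 : ind e = fun n => (1 / 2 : ℂ) + (1 / 2 : ℂ) * ((sg (e n) : ℝ) : ℂ) := by
          rw [ind_eq]
          funext n
          unfold sgn
          ring
        rw [h3] at hcon
        have h1 := he.1 hcon
        simp only [hmean] at h1
        exact h0 η hη0 h1
      intro hz
      have h1 : ∀ᵐ e ∂(Measure.infinitePi fun n => law (η * sg (e0 n))), P (ind e) := by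
        rw [ae_iff]; exact hz
      have h2 : ∀ᵐ _e ∂(Measure.infinitePi fun n => law (η * sg (e0 n))), False := by
        filter_upwards [h1, hall] with e he1 he2
        exact he2 he1
      simp only [Filter.eventually_false_iff_eq_bot, ae_eq_bot] at h2
      exact IsProbabilityMeasure.ne_zero _ h2
  by_contra hcon
  push Not at hcon
  obtain ⟨r, hr1, hr2⟩ := ENNReal.lt_iff_exists_nnreal_btwn.1 hcon
  have hr2' : r < 1 := by exact_mod_cast hr2
  have hr0 : 0 < r := by
    have : (0 : ℝ≥0∞) < r := lt_of_le_of_lt bot_le hr1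
    exact_mod_cast this
  exact absurd (key r hr0 hr2') (not_le.2 hr1)

/-- **Dimension theorem for sets of integers** -/
theorem dim_ind {P : (ℕ → ℂ) → Prop} (hP : Adm P) (e0 : ℕ → Bool) (h0 : ¬ P (ind e0)) :
    1 ≤ dimH {e : ℕ → Bool | ¬ P (ind e)} := by
  by_cases h1 : P (fun _ => 1)
  · apply dim_ind_aux hP e0
    intro η hη hcon
    apply h0
    have hηc : (η : ℂ) ≠ 0 := by exact_mod_cast hη.ne'
    have h2 := hP.add _ _ (hP.smul (1 / (η : ℂ)) _ hcon) (hP.smul (1 / 2 - 1 / (2 * (η : ℂ))) _ h1)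
    refine cast ?_ h2
    congr 1
    rw [ind_eq]
    funext n
    field_simp
    ring
  · apply dim_ind_aux hP (fun _ => true)
    intro η hη hcon
    apply h1
    have hηc : (1 + (η : ℂ)) ≠ 0 := by
      have : (1 + η : ℝ) ≠ 0 := by positivity
      exact_mod_cast this
    have h2 := hP.smul (2 / (1 + (η : ℂ))) _ hcon
    refine cast ?_ h2
    congr 1
    funext n
    have : sgn (fun _ => true) n = 1 := by simp [sgn, sg]
    rw [this]
    field_simp

end Pool.Agent.Q93.DP
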