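import Pool.Agent.Q93.DP.Core

/-! Dirichlet polynomials with independent random coefficients of mean zero: an almost sure bound
for all lengths and all real numbers `t`. -/

set_option autoImplicit false

open MeasureTheory ProbabilityTheory

namespace Pool.Agent.Q93.DP

/-- `n^{it}` -/
noncomputable def ph (t : ℝ) (n : ℕ) : ℂ := Complex.exp (Complex.I * (t : ℂ) * (Real.log (n : ℝ) : ℂ))

lemma D_eq (a : ℕ → ℂ) (M N : ℕ) (t : ℝ) : D a M N t = ∑ n ∈ Finset.Icc M N, a n * ph t n := rfl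

lemma D_triv (a : ℕ → ℂ) (ha : ∀ n, ‖a n‖ ≤ 1) (N : ℕ) (t : ℝ) : ‖D a 1 N t‖ ≤ N := by
  unfold D
  refine (norm_sum_le _ _).trans ?_
  calc ∑ n ∈ Finset.Icc 1 N, ‖a n * Complex.exp (Complex.I * (t : ℂ) * (Real.log (n : ℝ) : ℂ))‖
      ≤ ∑ _n ∈ Finset.Icc 1 N, (1 : ℝ) := Finset.sum_le_sum fun n _ => by
        rw [norm_mul, norm_ph, mul_one]; exact ha n
    _ = N := by simp

lemma D_lip (a : ℕ → ℂ) (ha : ∀ n, ‖a n‖ ≤ 1) (N : ℕ) (hN : 1 ≤ N) (t t' : ℝ)
    (h : |t - t'| ≤ 1 / N) : ‖D a 1 N t - D a 1 N t'‖ ≤ Real.log N := by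
  have hN0 : (0 : ℝ) < N := by exact_mod_cast hN
  rw [D_eq, D_eq, ← Finset.sum_sub_distrib]
  refine (norm_sum_le _ _).trans ?_
  calc ∑ n ∈ Finset.Icc 1 N, ‖a n * ph t n - a n * ph t' n‖
      ≤ ∑ _n ∈ Finset.Icc 1 N, (1 / (N : ℝ) * Real.log N) := by
        refine Finset.sum_le_sum fun n hn => ?_
        rw [Finset.mem_Icc] at hn
        have e : a n * ph t n - a n * ph t' n =
            a n * (ph t' n * (Complex.exp (Complex.I * (((t - t') * Real.log n : ℝ) : ℂ)) - 1)) := by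
          unfold ph
          have : Complex.exp (Complex.I * (t : ℂ) * (Real.log (n : ℝ) : ℂ)) =
              Complex.exp (Complex.I * (t' : ℂ) * (Real.log (n : ℝ) : ℂ)) *
                Complex.exp (Complex.I * (((t - t') * Real.log n : ℝ) : ℂ)) := by
            rw [← Complex.exp_add]
            congr 1
            push_cast
            ring
          rw [this]
          ring
        rw [e, norm_mul, norm_mul]
        have h1 : ‖ph t' n‖ = 1 := norm_ph t' n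
        rw [h1, one_mul]
        have h2 := norm_exp_I_mul_ofReal_sub_one_le' ((t - t') * Real.log n)
        have hl0 : 0 ≤ Real.log n := Real.log_natCast_nonneg n
        have hl : Real.log n ≤ Real.log N :=
          Real.log_le_log (by exact_mod_cast hn.1) (by exact_mod_cast hn.2)
        have h3 : |(t - t') * Real.log n| ≤ 1 / (N : ℝ) * Real.log N := by
          rw [abs_mul, abs_of_nonneg hl0]
          exact mul_le_mul h hl hl0 (by positivity)
        calc ‖a n‖ * _ ≤ 1 * (1 / (N : ℝ) * Real.log N) :=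
              mul_le_mul (ha n) (h2.trans h3) (norm_nonneg _) (by norm_num)
          _ = _ := one_mul _
    _ = Real.log N := by
        rw [Finset.sum_const, Nat.card_Icc, nsmul_eq_mul, Nat.add_sub_cancel]
        field_simp
where
  norm_exp_I_mul_ofReal_sub_one_le' (x : ℝ) : ‖Complex.exp (Complex.I * x) - 1‖ ≤ |x| := by
    have := Real.norm_exp_I_mul_ofReal_sub_one_le (x := x)
    rwa [Real.norm_eq_abs] at this

section

variable {Ω : Type*} [MeasurableSpace Ω] {μ : Measure Ω} [IsProbabilityMeasure μ]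
  {X : ℕ → Ω → ℂ}

lemma tail1 (hm : ∀ n, Measurable (X n)) (hi : iIndepFun X μ) (hb : ∀ n ω, ‖X n ω‖ ≤ 1)
    (h0 : ∀ n, ∫ ω, X n ω ∂μ = 0) (c : ℂ) (hc : ‖c‖ = 1) (N : ℕ) (t : ℝ) {l : ℝ} (hl : 0 ≤ l) :
    μ.real {ω | l ≤ (c * D (fun n => X n ω) 1 N t).re} ≤ Real.exp (-l ^ 2 / (2 * N)) := by
  have hind : iIndepFun (fun n ω => (c * ph t n * X n ω).re) μ := by
    have := hi.comp (fun n z => (c * ph t n * z).re) (fun n => by fun_prop)
    exact this
  have hint : ∀ n, Integrable (X n) μ := by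
    intro n
    exact Integrable.of_bound (hm n).aestronglyMeasurable 1 (ae_of_all _ (hb n))
  have hsub : ∀ n ∈ Finset.Icc 1 N,
      HasSubgaussianMGF (fun ω => (c * ph t n * X n ω).re) ((fun _ => (1 : NNReal)) n) μ := by
    intro n _
    have hnorm : ∀ ω, ‖c * ph t n * X n ω‖ ≤ 1 := by
      intro ω
      rw [norm_mul, norm_mul, hc, one_mul]
      have h1 : ‖ph t n‖ = 1 := norm_ph t n
      rw [h1, one_mul]
      exact hb n ω
    have h := hasSubgaussianMGF_of_mem_Icc_of_integral_eq_zero (μ := μ)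
      (X := fun ω => (c * ph t n * X n ω).re) (a := -1) (b := 1)
      (Complex.measurable_re.comp ((hm n).const_mul _)).aemeasurable
      (ae_of_all _ fun ω => by
        have := (Complex.abs_re_le_norm (c * ph t n * X n ω)).trans (hnorm ω)
        exact abs_le.1 this) ?_
    · have e : ((‖(1 : ℝ) - (-1)‖₊ / 2) ^ 2 : NNReal) = 1 := by
        have : ‖(1 : ℝ) - (-1)‖₊ = 2 := by
          rw [← NNReal.coe_inj]
          simp only [coe_nnnorm, NNReal.coe_ofNat]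
          norm_num
        rw [this]
        norm_num
      rw [e] at h
      exact h
    · have e1 : ∫ ω, (c * ph t n * X n ω).re ∂μ = (∫ ω, c * ph t n * X n ω ∂μ).re :=
        Complex.reCLM.integral_comp_comm ((hint n).const_mul _)
      rw [e1, integral_const_mul, h0, mul_zero, Complex.zero_re]
  have hmain := HasSubgaussianMGF.measure_sum_ge_le_of_iIndepFun hind hsub hl
  have e : ∀ ω, (c * D (fun n => X n ω) 1 N t).re =
      ∑ n ∈ Finset.Icc 1 N, (c * ph t n * X n ω).re := by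
    intro ω
    rw [D_eq, Finset.mul_sum, Complex.re_sum]
    refine Finset.sum_congr rfl fun n _ => ?_
    congr 1
    ring
  simp only [e]
  refine hmain.trans (le_of_eq ?_)
  congr 2
  simp

lemma tail (hm : ∀ n, Measurable (X n)) (hi : iIndepFun X μ) (hb : ∀ n ω, ‖X n ω‖ ≤ 1)
    (h0 : ∀ n, ∫ ω, X n ω ∂μ = 0) (N : ℕ) (t : ℝ) {l : ℝ} (hl : 0 ≤ l) :
    μ.real {ω | 2 * l ≤ ‖D (fun n => X n ω) 1 N t‖} ≤ 4 * Real.exp (-l ^ 2 / (2 * N)) := by
  have hsub : {ω | 2 * l ≤ ‖D (fun n => X n ω) 1 N t‖} ⊆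
      (({ω | l ≤ (1 * D (fun n => X n ω) 1 N t).re} ∪ {ω | l ≤ (-1 * D (fun n => X n ω) 1 N t).re}) ∪
      ({ω | l ≤ (Complex.I * D (fun n => X n ω) 1 N t).re} ∪
        {ω | l ≤ (-Complex.I * D (fun n => X n ω) 1 N t).re})) := by
    intro ω hω
    simp only [Set.mem_ofPred_eq] at hω
    simp only [Set.mem_union, Set.mem_ofPred_eq]
    obtain ⟨z, hz⟩ : ∃ z, z = D (fun n => X n ω) 1 N t := ⟨_, rfl⟩
    rw [← hz] at hω ⊢
    have h1 := Complex.norm_le_abs_re_add_abs_im z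
    simp only [one_mul, neg_mul, Complex.neg_re, Complex.mul_re, Complex.I_re, Complex.I_im,
      zero_mul, one_mul, zero_sub, neg_neg]
    by_contra hcon
    push Not at hcon
    obtain ⟨⟨h2, h3⟩, h4, h5⟩ := hcon
    have h6 : |z.re| < l := abs_lt.2 ⟨by linarith, h2⟩
    have h7 : |z.im| < l := abs_lt.2 ⟨by linarith, h5⟩
    linarith
  have b1 := tail1 hm hi hb h0 1 (by simp) N t hl
  have b2 := tail1 hm hi hb h0 (-1) (by simp) N t hl
  have b3 := tail1 hm hi hb h0 Complex.I (by simp) N t hl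
  have b4 := tail1 hm hi hb h0 (-Complex.I) (by simp) N t hl
  calc _ ≤ _ := measureReal_mono hsub
    _ ≤ _ := measureReal_union_le _ _
    _ ≤ _ := add_le_add (measureReal_union_le _ _) (measureReal_union_le _ _)
    _ ≤ _ := by linarith

/-- the exceptional events -/
def bad (X : ℕ → Ω → ℂ) (p : ℕ × ℕ) : Set Ω :=
  {ω | 2 * Real.sqrt (8 * (p.1 + 1 : ℕ) * Real.log ((p.1 + 1 : ℕ) + p.2 + 2)) ≤
      ‖D (fun n => X n ω) 1 (p.1 + 1) ((p.2 : ℝ) / (p.1 + 1 : ℕ))‖} ∪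
  {ω | 2 * Real.sqrt (8 * (p.1 + 1 : ℕ) * Real.log ((p.1 + 1 : ℕ) + p.2 + 2)) ≤
      ‖D (fun n => X n ω) 1 (p.1 + 1) (-((p.2 : ℝ) / (p.1 + 1 : ℕ)))‖}

lemma bad_le (hm : ∀ n, Measurable (X n)) (hi : iIndepFun X μ) (hb : ∀ n ω, ‖X n ω‖ ≤ 1)
    (h0 : ∀ n, ∫ ω, X n ω ∂μ = 0) (p : ℕ × ℕ) :
    μ (bad X p) ≤ ENNReal.ofReal (8 * ((1 / ((p.1 : ℝ) + 1) ^ 2) * (1 / ((p.2 : ℝ) + 1) ^ 2))) := by
  obtain ⟨m, j⟩ := p
  have hN0 : (0 : ℝ) < ((m + 1 : ℕ) : ℝ) := by positivity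
  have hL0 : 0 ≤ Real.log (((m + 1 : ℕ) : ℝ) + j + 2) := Real.log_nonneg (by
    have : (0:ℝ) ≤ j := Nat.cast_nonneg j
    linarith)
  have key : ∀ t : ℝ, μ.real {ω | 2 * Real.sqrt (8 * (m + 1 : ℕ) *
      Real.log ((m + 1 : ℕ) + j + 2)) ≤ ‖D (fun n => X n ω) 1 (m + 1) t‖} ≤
      4 * ((1 / ((m : ℝ) + 1) ^ 2) * (1 / ((j : ℝ) + 1) ^ 2)) := by
    intro t
    refine (tail hm hi hb h0 (m + 1) t (Real.sqrt_nonneg _)).trans ?_
    apply mul_le_mul_of_nonneg_left _ (by norm_num)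
    rw [Real.sq_sqrt (by positivity)]
    have e : -(8 * ((m + 1 : ℕ) : ℝ) * Real.log (((m + 1 : ℕ) : ℝ) + j + 2)) /
        (2 * ((m + 1 : ℕ) : ℝ)) = -(4 : ℕ) * Real.log (((m + 1 : ℕ) : ℝ) + j + 2) := by
      field_simp
      push_cast
      ring
    have hpos : (0 : ℝ) < ((m + 1 : ℕ) : ℝ) + j + 2 := by positivity
    rw [e, neg_mul, Real.exp_neg, Real.exp_nat_mul, Real.exp_log hpos]
    rw [← one_div, one_div_mul_one_div]
    apply one_div_le_one_div_of_le (by positivity)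
    have h1 : ((m : ℝ) + 1) * ((j : ℝ) + 1) ≤ (((m + 1 : ℕ) : ℝ) + j + 2) ^ 2 := by
      push_cast
      have : (0:ℝ) ≤ j := Nat.cast_nonneg j
      have : (0:ℝ) ≤ m := Nat.cast_nonneg m
      nlinarith
    calc ((m : ℝ) + 1) ^ 2 * ((j : ℝ) + 1) ^ 2 = (((m : ℝ) + 1) * ((j : ℝ) + 1)) ^ 2 := by ring
      _ ≤ ((((m + 1 : ℕ) : ℝ) + j + 2) ^ 2) ^ 2 := by
          apply pow_le_pow_left₀ (by positivity) h1
      _ = _ := by ring
  have hr : μ.real (bad X (m, j)) ≤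
      8 * ((1 / ((m : ℝ) + 1) ^ 2) * (1 / ((j : ℝ) + 1) ^ 2)) := by
    refine (measureReal_union_le _ _).trans ?_
    have h1 := key ((j : ℝ) / (m + 1 : ℕ))
    have h2 := key (-((j : ℝ) / (m + 1 : ℕ)))
    simp only
    linarith
  rw [← ENNReal.ofReal_toReal (measure_ne_top μ (bad X (m, j)))]
  exact ENNReal.ofReal_le_ofReal hr

/-- **Almost sure bound**: independent coefficients of mean zero, all lengths, all `t`. -/
theorem as_bound (hm : ∀ n, Measurable (X n)) (hi : iIndepFun X μ) (hb : ∀ n ω, ‖X n ω‖ ≤ 1)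
    (h0 : ∀ n, ∫ ω, X n ω ∂μ = 0) :
    ∀ᵐ ω ∂μ, ∃ C : ℝ, 0 ≤ C ∧ ∀ (N : ℕ) (t : ℝ),
      ‖D (fun n => X n ω) 1 N t‖ ^ 2 ≤ C * (N * Real.log (N + |t| + 2)) := by
  have hsum : Summable (fun p : ℕ × ℕ =>
      8 * ((1 / ((p.1 : ℝ) + 1) ^ 2) * (1 / ((p.2 : ℝ) + 1) ^ 2))) := by
    apply Summable.mul_left
    have h1 : Summable (fun n : ℕ => 1 / ((n : ℝ) + 1) ^ 2) := by
      have := (summable_nat_add_iff 1).2 (Real.summable_one_div_nat_pow.2 (by norm_num : 1 < 2))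
      simpa using this
    exact h1.mul_of_nonneg h1 (fun n => by positivity) (fun n => by positivity)
  have hfin : ∑' p : ℕ × ℕ, μ (bad X p) ≠ ⊤ := by
    refine ne_top_of_le_ne_top hsum.tsum_ofReal_ne_top ?_
    exact ENNReal.tsum_le_tsum fun p => bad_le hm hi hb h0 p
  filter_upwards [ae_finite_setOfPred_mem hfin] with ω hω
  obtain ⟨M0, hM0⟩ := (hω.image Prod.fst).bddAbove
  have hlog1 : ∀ (N : ℕ) (x : ℝ), 1 ≤ N → 0 ≤ x → 1 ≤ Real.log (N + x + 2) := by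
    intro N x hN hx
    have hN' : (1 : ℝ) ≤ N := by exact_mod_cast hN
    rw [Real.le_log_iff_exp_le (by linarith)]
    have := Real.exp_one_lt_d9
    linarith
  have hnet : ∀ (N j : ℕ), 1 ≤ N → ∀ t : ℝ, (t = (j : ℝ) / N ∨ t = -((j : ℝ) / N)) →
      ‖D (fun n => X n ω) 1 N t‖ ^ 2 ≤ (32 + ((M0 : ℝ) + 1) ^ 2) * (N * Real.log (N + j + 2)) := by
    intro N j hN t ht
    obtain ⟨m, rfl⟩ : ∃ m, N = m + 1 := ⟨N - 1, by omega⟩
    have hl1 := hlog1 (m + 1) j (by omega) (Nat.cast_nonneg j)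
    have hN' : (1 : ℝ) ≤ ((m + 1 : ℕ) : ℝ) := by exact_mod_cast hN
    have hP : 1 ≤ ((m + 1 : ℕ) : ℝ) * Real.log (((m + 1 : ℕ) : ℝ) + j + 2) := by nlinarith
    by_cases hp : ω ∈ bad X (m, j)
    · have hle : m ≤ M0 := hM0 ⟨(m, j), hp, rfl⟩
      have h1 := D_triv (fun n => X n ω) (fun n => hb n ω) (m + 1) t
      have h2 : ((m + 1 : ℕ) : ℝ) ≤ (M0 : ℝ) + 1 := by exact_mod_cast Nat.succ_le_succ hle
      have h3 : ‖D (fun n => X n ω) 1 (m + 1) t‖ ^ 2 ≤ ((M0 : ℝ) + 1) ^ 2 :=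
        pow_le_pow_left₀ (norm_nonneg _) (h1.trans h2) 2
      nlinarith [sq_nonneg ((M0 : ℝ) + 1)]
    · unfold bad at hp
      simp only [Set.mem_union, Set.mem_ofPred_eq, not_or, not_le] at hp
      have h1 : ‖D (fun n => X n ω) 1 (m + 1) t‖ <
          2 * Real.sqrt (8 * (m + 1 : ℕ) * Real.log ((m + 1 : ℕ) + j + 2)) := by
        rcases ht with rfl | rfl
        · exact hp.1
        · exact hp.2
      have h2 : ‖D (fun n => X n ω) 1 (m + 1) t‖ ^ 2 ≤
          (2 * Real.sqrt (8 * (m + 1 : ℕ) * Real.log ((m + 1 : ℕ) + j + 2))) ^ 2 :=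
        pow_le_pow_left₀ (norm_nonneg _) h1.le 2
      rw [mul_pow, Real.sq_sqrt (by positivity)] at h2
      nlinarith [sq_nonneg ((M0 : ℝ) + 1)]
  refine ⟨4 * (32 + ((M0 : ℝ) + 1) ^ 2) + 2, by positivity, fun N t => ?_⟩
  rcases Nat.eq_zero_or_pos N with hN | hN
  · subst hN
    simp [D]
  have hN0 : (0 : ℝ) < N := by exact_mod_cast hN
  have hN1 : (1 : ℝ) ≤ N := by exact_mod_cast hN
  obtain ⟨j, hj⟩ : ∃ j : ℕ, j = ⌊|t| * N⌋₊ := ⟨_, rfl⟩
  have hj1 : (j : ℝ) ≤ |t| * N := by rw [hj]; exact Nat.floor_le (by positivity)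
  have hj2 : |t| * N < (j : ℝ) + 1 := by rw [hj]; exact Nat.lt_floor_add_one _
  obtain ⟨t', ht', htt⟩ : ∃ t' : ℝ, (t' = (j : ℝ) / N ∨ t' = -((j : ℝ) / N)) ∧
      |t - t'| ≤ 1 / N := by
    have h1 : (j : ℝ) / N ≤ |t| := by rw [div_le_iff₀ hN0]; exact hj1
    have h2 : |t| ≤ (j : ℝ) / N + 1 / N := by
      rw [← add_div, le_div_iff₀ hN0]; exact hj2.le
    rcases le_total 0 t with h | h
    · refine ⟨(j : ℝ) / N, Or.inl rfl, ?_⟩
      rw [abs_of_nonneg h] at h1 h2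
      rw [abs_le]
      constructor
      · have : (0 : ℝ) ≤ 1 / N := by positivity
        linarith
      · linarith
    · refine ⟨-((j : ℝ) / N), Or.inr rfl, ?_⟩
      rw [abs_of_nonpos h] at h1 h2
      rw [abs_le]
      constructor
      · linarith
      · have : (0 : ℝ) ≤ 1 / N := by positivity
        linarith
  have h1 := hnet N j hN t' ht'
  have h2 := D_lip (fun n => X n ω) (fun n => hb n ω) N hN t t' htt
  have h3 : ‖D (fun n => X n ω) 1 N t‖ ≤ ‖D (fun n => X n ω) 1 N t'‖ + Real.log N := by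
    have := norm_sub_norm_le (D (fun n => X n ω) 1 N t) (D (fun n => X n ω) 1 N t')
    linarith
  have hlN0 : 0 ≤ Real.log N := Real.log_natCast_nonneg N
  have h4 : ‖D (fun n => X n ω) 1 N t‖ ^ 2 ≤
      2 * ‖D (fun n => X n ω) 1 N t'‖ ^ 2 + 2 * Real.log N ^ 2 := by
    have h5 : ‖D (fun n => X n ω) 1 N t‖ ^ 2 ≤ (‖D (fun n => X n ω) 1 N t'‖ + Real.log N) ^ 2 :=
      pow_le_pow_left₀ (norm_nonneg _) h3 2
    nlinarith [sq_nonneg (‖D (fun n => X n ω) 1 N t'‖ - Real.log N)]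
  have ht0 : 0 ≤ |t| := abs_nonneg t
  have h6 : Real.log (N + j + 2) ≤ 2 * Real.log (N + |t| + 2) := by
    have e : 2 * Real.log (N + |t| + 2) = Real.log ((N + |t| + 2) ^ 2) := by
      rw [Real.log_pow]; norm_num
    rw [e]
    apply Real.log_le_log (by positivity)
    nlinarith
  have h7 : Real.log N ^ 2 ≤ N * Real.log (N + |t| + 2) := by
    have h8 : Real.log N ≤ N := (Real.log_le_sub_one_of_pos hN0).trans (by linarith)
    have h9 : Real.log N ≤ Real.log (N + |t| + 2) := Real.log_le_log hN0 (by linarith)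
    calc Real.log N ^ 2 = Real.log N * Real.log N := by ring
      _ ≤ N * Real.log (N + |t| + 2) := mul_le_mul h8 h9 hlN0 hN0.le
  have h10 : (32 + ((M0 : ℝ) + 1) ^ 2) * (N * Real.log (N + j + 2)) ≤
      (32 + ((M0 : ℝ) + 1) ^ 2) * (N * (2 * Real.log (N + |t| + 2))) := by
    apply mul_le_mul_of_nonneg_left _ (by positivity)
    exact mul_le_mul_of_nonneg_left h6 hN0.le
  nlinarith

end

end Pool.Agent.Q93.DP
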