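import Pool.Agent.Q93.DP.Ind
import Pool.Agent.Q93.DP.Dy

/-! Two admissible values for every coefficient, which may approach each other slowly. -/

set_option autoImplicit false

open MeasureTheory ProbabilityTheory ENNReal

namespace Pool.Agent.Q93.DP

attribute [local instance] PiNat.metricSpace

/-- `transfer` with a lower bound for the diameters only in the window -/
lemma transfer2 {q : ℝ} (hq : 1 ≤ q) (Z : ℕ → Set ℂ) {δ : ℝ} (hδ : 0 < δ) (S : Finset ℝ) (M N : ℕ)
    (hZδ : ∀ n, ∃ u ∈ Z n, ∃ v ∈ Z n, n ∈ Finset.Icc M N → δ ≤ ‖v - u‖) (y0 : ∀ n, Z n) (K : ℕ)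
    {B : ℝ}
    (h : ∀ y : ∀ n, Z n, (∀ n < K, y n = y0 n) → Ph q S M N (fun n => (y n : ℂ)) ≤ B)
    (a : ℕ → ℂ) (ha : ∀ n, ‖a n‖ ≤ 1) :
    Ph q S M N a ≤ 2 ^ q * ((S.card : ℝ) * (K : ℝ) ^ q + (1 / δ) ^ q * (2 ^ q * (2 ^ q *
      (2 * (2 ^ q * (2 * B))) + 2 ^ q * (2 * (2 ^ q * (2 * B)))))) := by
  have hZ1 : ∀ n, ∃ z, z ∈ Z n := fun n => by
    obtain ⟨u, hu, -⟩ := hZδ n
    exact ⟨u, hu⟩
  classical
  -- outside of the window use large artificial sets
  have h1 := transfer hq (fun n => if n ∈ Finset.Icc M N then Z n else Z n ∪ {0, (δ : ℂ)}) hδ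
    (fun n => by
      by_cases hn : n ∈ Finset.Icc M N
      · simp only [if_pos hn]
        obtain ⟨u, hu, v, hv, huv⟩ := hZδ n
        exact ⟨u, hu, v, hv, huv hn⟩
      · simp only [if_neg hn]
        refine ⟨0, Or.inr (Or.inl rfl), (δ : ℂ), Or.inr (Or.inr rfl), ?_⟩
        rw [sub_zero, Complex.norm_real, Real.norm_of_nonneg hδ.le])
    (fun n => ⟨(y0 n : ℂ), by
      by_cases hn : n ∈ Finset.Icc M N
      · simp only [if_pos hn]; exact (y0 n).2
      · simp only [if_neg hn]; exact Or.inl (y0 n).2⟩) K S M N (B := B)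
    (fun z hz => by
      choose w hw using hZ1
      have hmem : ∀ n, n ∈ Finset.Icc M N → (z n : ℂ) ∈ Z n := by
        intro n hn
        have h2 := (z n).2
        simp only [if_pos hn] at h2
        exact h2
      have h3 := h (fun n => if hn : n ∈ Finset.Icc M N then ⟨(z n : ℂ), hmem n hn⟩ else
        if n < K then y0 n else ⟨w n, hw n⟩) (fun n hn => by
          by_cases hn2 : n ∈ Finset.Icc M N
          · simp only [dif_pos hn2]
            have h9 : (z n : ℂ) = (y0 n : ℂ) := by rw [hz n hn]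
            exact Subtype.ext h9
          · simp only [dif_neg hn2, if_pos hn])
      refine le_trans (le_of_eq ?_) h3
      apply Ph_congr
      intro n hn
      simp only [dif_pos hn]) a ha
  exact h1

/-- the category theorem with two majorants -/
theorem meagre_of_not2 {X : Type*} (M N : X → ℕ) (S : X → Finset ℝ) (g g' : X → ℝ) {q : ℝ}
    (hq : 1 ≤ q) {c : ℝ} (hc : 0 < c) (hg' : ∀ x, 0 < g' x) (hgS : ∀ x, c * (S x).card ≤ g x)
    (u v : ℕ → ℂ) (δ : X → ℝ) (hδ : ∀ x, 0 < δ x)
    (huv : ∀ x, ∀ n ∈ Finset.Icc (M x) (N x), δ x ≤ ‖v n - u n‖) (L : ℝ)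
    (hL : ∀ x, (1 / δ x) ^ q * g' x ≤ L * g x) (h : ¬ UBd M N S g q) :
    IsMeagre {e : ℕ → Bool | Bd M N S g' q (fun n => if e n then v n else u n)} := by
  have hm := hump (fun (x : X) (e : ℕ → Bool) =>
    Ph q (S x) (M x) (N x) (fun n => if e n then v n else u n) / g' x) (fun x => ?_) ?_
  · refine IsMeagre.mono ?_ hm
    rintro y ⟨C, hC⟩
    exact ⟨C, fun x => by rw [div_le_iff₀ (hg' x)]; exact hC x⟩
  · apply Continuous.div_const
    unfold Ph D
    apply continuous_finsetSum
    intro t _
    apply Continuous.rpow_const _ (fun _ => Or.inr (by linarith))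
    apply Continuous.norm
    apply continuous_finsetSum
    intro n _
    exact ((continuous_of_discreteTopology (f := fun b : Bool => if b then v n else u n)).comp
      (continuous_apply n)).mul continuous_const
  · intro y0 K C
    by_contra hcon
    push Not at hcon
    apply h
    obtain ⟨W, hW⟩ : ∃ W : ℝ, W = 2 ^ q * (2 ^ q * (2 * (2 ^ q * (2 * max C 0))) +
      2 ^ q * (2 * (2 ^ q * (2 * max C 0)))) := ⟨_, rfl⟩
    have hW0 : 0 ≤ W := by
      have : 0 ≤ max C 0 := le_max_right _ _
      rw [hW]; positivity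
    refine ⟨2 ^ q * ((K : ℝ) ^ q / c + W * L), fun x a ha => ?_⟩
    have h1 := transfer2 hq (fun n => {u n, v n}) (hδ x) (S x) (M x) (N x) (fun n =>
      ⟨u n, Or.inl rfl, v n, Or.inr rfl, fun hn => huv x n hn⟩)
      (fun n => ⟨if y0 n then v n else u n, by
        by_cases hn : y0 n <;> simp [hn]⟩) K
      (B := max C 0 * g' x) (fun z hz => by
        have hw : ∀ n, ∃ b : Bool, (z n : ℂ) = if b then v n else u n := by
          intro n
          rcases (z n).2 with h2 | h2
          · exact ⟨false, by simp [h2]⟩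
          · have h3 : (z n : ℂ) = v n := h2
            exact ⟨true, by simp [h3]⟩
        choose w hw using hw
        have hc1 := hcon (fun n => if n < K then y0 n else w n) (fun n hn => by simp [hn]) x
        rw [div_le_iff₀ (hg' x)] at hc1
        refine le_trans (le_of_eq ?_) (hc1.trans
          (mul_le_mul_of_nonneg_right (le_max_left C 0) (hg' x).le))
        congr 1
        funext n
        by_cases hn : n < K
        · simp only [if_pos hn]
          rw [hz n hn]
        · simp only [if_neg hn]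
          exact hw n) a ha
    refine h1.trans ?_
    have h2 : ((S x).card : ℝ) * (K : ℝ) ^ q ≤ (K : ℝ) ^ q / c * g x := by
      have h3 := hgS x
      have h4 : 0 ≤ (K : ℝ) ^ q := by positivity
      rw [div_mul_eq_mul_div, le_div_iff₀ hc]
      nlinarith
    have h3 := hL x
    calc _ = 2 ^ q * (((S x).card : ℝ) * (K : ℝ) ^ q + W * ((1 / δ x) ^ q * g' x)) := by
          rw [hW]; ring
      _ ≤ 2 ^ q * ((K : ℝ) ^ q / c * g x + W * (L * g x)) := by
          apply mul_le_mul_of_nonneg_left _ (by positivity)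
          have := mul_le_mul_of_nonneg_left h3 hW0
          linarith
      _ = _ := by ring

/-- one product measure -/
theorem dim_two_aux {P : (ℕ → ℂ) → Prop} (hP : Adm P) (u v : ℕ → ℂ) (hu : ∀ n, ‖u n‖ ≤ 1)
    (hv : ∀ n, ‖v n‖ ≤ 1) {s : NNReal} (hs0 : 0 < s) (hs1 : s < 1) (e0 : ℕ → Bool)
    (h0 : ¬ P (fun n => (1 / 2 : ℂ) * (u n + v n) +
      (((2 * (1 / 2 : ℝ) ^ (s : ℝ) - 1 : ℝ) : ℂ)) * ((1 / 2 : ℂ) * (v n - u n) * sgn e0 n))) :
    (s : ℝ≥0∞) ≤ dimH {e : ℕ → Bool | ¬ P (fun n => if e n then v n else u n)} := by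
  have hs0' : (0 : ℝ) < s := by exact_mod_cast hs0
  have hs1' : (s : ℝ) < 1 := by exact_mod_cast hs1
  obtain ⟨η, hη⟩ : ∃ η : ℝ, η = 2 * (1 / 2 : ℝ) ^ (s : ℝ) - 1 := ⟨_, rfl⟩
  rw [← hη] at h0
  have hη0 : 0 < η := by
    have : (1 / 2 : ℝ) ^ (1 : ℝ) < (1 / 2 : ℝ) ^ (s : ℝ) :=
      Real.rpow_lt_rpow_of_exponent_gt (by norm_num) (by norm_num) hs1'
    rw [Real.rpow_one] at this
    linarith
  have hη1 : η ≤ 1 := by
    have : (1 / 2 : ℝ) ^ (s : ℝ) ≤ 1 := Real.rpow_le_one (by norm_num) (by norm_num) hs0'.le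
    linarith
  have habs : ∀ n, |η * sg (e0 n)| ≤ η := by
    intro n
    rw [abs_mul, abs_of_pos hη0]
    have : |sg (e0 n)| = 1 := by unfold sg; split_ifs <;> simp
    rw [this, mul_one]
  have hprob : ∀ n, IsProbabilityMeasure (law (η * sg (e0 n))) := fun n =>
    law_prob ((habs n).trans hη1)
  have hval : ∀ (n : ℕ) (b : Bool), (if b then v n else u n) =
      (1 / 2 : ℂ) * (u n + v n) + (1 / 2 : ℂ) * (v n - u n) * ((sg b : ℝ) : ℂ) := by
    intro n b
    cases b
    · simp only [sg, Bool.false_eq_true, if_false]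
      push_cast
      ring
    · simp only [sg, if_true]
      push_cast
      ring
  refine mass (Measure.infinitePi fun n => law (η * sg (e0 n))) hs0 ?_
    (A := {e : ℕ → Bool | ¬ P (fun n => if e n then v n else u n)}) ?_
  · intro x n
    rw [PiNat.cylinder_eq_pi]
    rw [Measure.infinitePi_pi _ (fun i _ => measurableSet_singleton _)]
    calc ∏ i ∈ Finset.range n, (law (η * sg (e0 i))) {x i}
        ≤ ∏ _i ∈ Finset.range n, ENNReal.ofReal ((1 + η) / 2) :=
          Finset.prod_le_prod' fun i _ => law_singleton (habs i) _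
      _ = ENNReal.ofReal ((1 + η) / 2) ^ n := by rw [Finset.prod_const, Finset.card_range]
      _ = _ := by
          have h1 : (1 + η) / 2 = (1 / 2 : ℝ) ^ (s : ℝ) := by rw [hη]; ring
          rw [h1, ← ENNReal.ofReal_pow (by positivity),
            ENNReal.ofReal_rpow_of_nonneg (by positivity) hs0'.le]
          congr 1
          rw [← Real.rpow_natCast, ← Real.rpow_natCast, ← Real.rpow_mul (by norm_num),
            ← Real.rpow_mul (by norm_num), mul_comm]
  · have hi : iIndepFun (fun n (ω : ℕ → Bool) => if ω n then v n else u n)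
        (Measure.infinitePi fun n => law (η * sg (e0 n))) :=
      iIndepFun_infinitePi (X := fun n (b : Bool) => if b then v n else u n)
        (fun _ => Measurable.of_discrete)
    have hb : ∀ n (ω : ℕ → Bool), ‖(if ω n then v n else u n)‖ ≤ 1 := by
      intro n ω
      split_ifs
      · exact hv n
      · exact hu n
    have hm : ∀ n, Measurable (fun (ω : ℕ → Bool) => if ω n then v n else u n) := fun n =>
      (Measurable.of_discrete (f := fun b : Bool => if b then v n else u n)).comp
        (measurable_pi_apply n)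
    have hmean : ∀ n, ∫ ω, (if ω n then v n else u n)
        ∂(Measure.infinitePi fun n => law (η * sg (e0 n))) =
        (1 / 2 : ℂ) * (u n + v n) + (η : ℂ) * ((1 / 2 : ℂ) * (v n - u n) * sgn e0 n) := by
      intro n
      have hmp := measurePreserving_eval_infinitePi (fun n => law (η * sg (e0 n))) n
      have h2 : ∫ ω, (if ω n then v n else u n)
          ∂(Measure.infinitePi fun n => law (η * sg (e0 n))) =
          ∫ b, (if b then v n else u n) ∂(law (η * sg (e0 n))) := by
        have h3 := integral_map (μ := Measure.infinitePi fun n => law (η * sg (e0 n)))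
          hmp.measurable.aemeasurable
          (f := fun b : Bool => if b then v n else u n)
          (Measurable.of_discrete.aestronglyMeasurable)
        rw [hmp.map_eq] at h3
        exact h3.symm
      have hfin : Integrable (fun b : Bool => (1 / 2 : ℂ) * (v n - u n) * ((sg b : ℝ) : ℂ))
        (law (η * sg (e0 n))) := Integrable.of_finite
      rw [h2]
      simp only [hval n]
      rw [integral_add (integrable_const _) hfin, integral_const, integral_const_mul,
        law_mean ((habs n).trans hη1), probReal_univ, one_smul]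
      unfold sgn
      push_cast
      ring
    have has := as_iff hP hm hi hb
    have hall : ∀ᵐ e ∂(Measure.infinitePi fun n => law (η * sg (e0 n))),
        ¬ P (fun n => if e n then v n else u n) := by
      filter_upwards [has] with e he hcon
      have h1 := he.1 hcon
      simp only [hmean] at h1
      exact h0 h1
    intro hz
    have h1 : ∀ᵐ e ∂(Measure.infinitePi fun n => law (η * sg (e0 n))),
        P (fun n => if e n then v n else u n) := by
      rw [ae_iff]; exact hz
    have h2 : ∀ᵐ _e ∂(Measure.infinitePi fun n => law (η * sg (e0 n))), False := by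
      filter_upwards [h1, hall] with e he1 he2
      exact he2 he1
    simp only [Filter.eventually_false_iff_eq_bot, ae_eq_bot] at h2
    exact IsProbabilityMeasure.ne_zero _ h2

/-- **Dimension theorem, two values for every coefficient** -/
theorem dim_two {P : (ℕ → ℂ) → Prop} (hP : Adm P) (u v : ℕ → ℂ) (hu : ∀ n, ‖u n‖ ≤ 1)
    (hv : ∀ n, ‖v n‖ ≤ 1) (e0 : ℕ → Bool) (h0 : ¬ P (fun n => if e0 n then v n else u n)) :
    1 ≤ dimH {e : ℕ → Bool | ¬ P (fun n => if e n then v n else u n)} := by
  have hval : ∀ (n : ℕ) (b : Bool), (if b then v n else u n) =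
      (1 / 2 : ℂ) * (u n + v n) + (1 / 2 : ℂ) * (v n - u n) * ((sg b : ℝ) : ℂ) := by
    intro n b
    cases b
    · simp only [sg, Bool.false_eq_true, if_false]
      push_cast
      ring
    · simp only [sg, if_true]
      push_cast
      ring
  have key : ∀ s : NNReal, 0 < s → s < 1 →
      (s : ℝ≥0∞) ≤ dimH {e : ℕ → Bool | ¬ P (fun n => if e n then v n else u n)} := by
    intro s hs0 hs1
    have hs1' : (s : ℝ) < 1 := by exact_mod_cast hs1
    have hη0 : 0 < 2 * (1 / 2 : ℝ) ^ (s : ℝ) - 1 := by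
      have : (1 / 2 : ℝ) ^ (1 : ℝ) < (1 / 2 : ℝ) ^ (s : ℝ) :=
        Real.rpow_lt_rpow_of_exponent_gt (by norm_num) (by norm_num) hs1'
      rw [Real.rpow_one] at this
      linarith
    have hηc : (((2 * (1 / 2 : ℝ) ^ (s : ℝ) - 1 : ℝ) : ℂ)) ≠ 0 := by exact_mod_cast hη0.ne'
    by_cases h1 : P (fun n => (1 / 2 : ℂ) * (u n + v n))
    · apply dim_two_aux hP u v hu hv hs0 hs1 e0
      intro hcon
      apply h0
      have h2 := hP.add _ _ hcon (hP.smul (-1) _ h1)
      have h3 := hP.smul (((2 * (1 / 2 : ℝ) ^ (s : ℝ) - 1 : ℝ) : ℂ))⁻¹ _ h2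
      have h4 := hP.add _ _ h1 h3
      refine cast ?_ h4
      congr 1
      funext n
      rw [hval n (e0 n)]
      obtain ⟨E, hE⟩ : ∃ E : ℂ, E = (((2 * (1 / 2 : ℝ) ^ (s : ℝ) - 1 : ℝ) : ℂ)) := ⟨_, rfl⟩
      rw [← hE] at hηc ⊢
      have h5 : E⁻¹ * (1 / 2 * (u n + v n) + E * (1 / 2 * (v n - u n) * sgn e0 n) +
          -1 * (1 / 2 * (u n + v n))) = 1 / 2 * (v n - u n) * sgn e0 n := by
        field_simp
        ring
      rw [h5]
      rfl
    · -- the constant sequences of bits
      by_cases h2 : P (fun n => (1 / 2 : ℂ) * (u n + v n) +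
          (((2 * (1 / 2 : ℝ) ^ (s : ℝ) - 1 : ℝ) : ℂ)) *
            ((1 / 2 : ℂ) * (v n - u n) * sgn (fun _ => true) n))
      · apply dim_two_aux hP u v hu hv hs0 hs1 (fun _ => false)
        intro hcon
        apply h1
        have h3 := hP.smul (1 / 2) _ (hP.add _ _ h2 hcon)
        refine cast ?_ h3
        congr 1
        funext n
        have e1 : sgn (fun _ => true) n = 1 := by simp [sgn, sg]
        have e2 : sgn (fun _ => false) n = -1 := by simp [sgn, sg]
        rw [e1, e2]
        ring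
      · exact dim_two_aux hP u v hu hv hs0 hs1 _ h2
  by_contra hcon
  push Not at hcon
  obtain ⟨r, hr1, hr2⟩ := ENNReal.lt_iff_exists_nnreal_btwn.1 hcon
  have hr2' : r < 1 := by exact_mod_cast hr2
  have hr0 : 0 < r := by
    have : (0 : ℝ≥0∞) < r := lt_of_le_of_lt bot_le hr1
    exact_mod_cast this
  exact absurd (key r hr0 hr2') (not_le.2 hr1)

end Pool.Agent.Q93.DP
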